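import Mathlib
import Pool.Agent.H71R2.Frob.Gen

/-!
# The ideal of relations of a locally free group
-/

set_option autoImplicit false

namespace Pool.Agent.R664.DF

open MvPolynomial Pool.Agent.H71R2.Frob

variable {p : ℕ} [Fact p.Prime] {G : Type} [Group G]

/-- renaming the variables -/
theorem rename_mem_Jid {I J : Type} (s : I → G) (j : J → I) (K : Subgroup G) (hs : ∀ i, s i ∈ K)
    (f : MvPolynomial (J × Fin 2 × Fin 2) (ZMod p)) :
    rename (Prod.map j id) f ∈ Jid p s K ↔ f ∈ Jid p (s ∘ j) K := by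
  rw [mem_Jid, mem_Jid]
  constructor
  · intro h Ω _ _ ρ b hb
    have h1 := h Ω ρ (fun i => ⟨s i, hs i⟩) (fun i => rfl)
    rw [aeval_rename] at h1
    have h2 : b = fun i => ⟨s (j i), hs (j i)⟩ := funext fun i => Subtype.ext (hb i)
    rw [h2]
    exact h1
  · intro h Ω _ _ ρ b hb
    have h1 := h Ω ρ (fun i => b (j i)) (fun i => hb (j i))
    rw [aeval_rename]
    exact h1

/-- primality for free groups of finite rank -/
theorem mul_notMem_Jid_of_free {I : Type} (s : I → G) {B : Subgroup G} {r : ℕ}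
    (e : FreeGroup (Fin r) ≃* B) (hs : ∀ i, s i ∈ B)
    {f g : MvPolynomial (I × Fin 2 × Fin 2) (ZMod p)} (hf : f ∉ Jid p s B) (hg : g ∉ Jid p s B) :
    f * g ∉ Jid p s B := by
  intro h
  let b : I → B := fun i => ⟨s i, hs i⟩
  have h1 : aeval (fun v : I × Fin 2 × Fin 2 =>
      (FreeGroup.lift (Agen p r) (e.symm (b v.1))).1 v.2.1 v.2.2) f ≠ 0 := fun h =>
    hf (mem_Jid_of_gen e s b (fun _ => rfl) f h)
  have h2 : aeval (fun v : I × Fin 2 × Fin 2 =>
      (FreeGroup.lift (Agen p r) (e.symm (b v.1))).1 v.2.1 v.2.2) g ≠ 0 := fun h =>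
    hg (mem_Jid_of_gen e s b (fun _ => rfl) g h)
  rw [mem_Jid] at h
  have h3 := h (EE p r) ((FreeGroup.lift (Agen p r)).comp e.symm.toMonoidHom) b (fun _ => rfl)
  have h4 : aeval (fun v : I × Fin 2 × Fin 2 =>
      (FreeGroup.lift (Agen p r) (e.symm (b v.1))).1 v.2.1 v.2.2) (f * g) = 0 := h3
  rw [map_mul] at h4
  exact (mul_ne_zero h1 h2) h4

section ultra

variable (K : Subgroup G) (hfree : ∀ H : Subgroup G, H ≤ K → H.FG → IsFreeGroup H)

/-- finitely generated subgroups of `K` -/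
abbrev FS (K : Subgroup G) : Type := {B : Subgroup G // B ≤ K ∧ B.FG}

include hfree in
theorem exists_iso (B : FS K) : ∃ r : ℕ, Nonempty (FreeGroup (Fin r) ≃* B.1) := by
  have h1 : IsFreeGroup B.1 := hfree B.1 B.2.1 B.2.2
  have h2 : Group.FG B.1 := (Group.fg_iff_subgroup_fg B.1).2 B.2.2
  exact exists_equiv_freeGroup B.1

/-- joins -/
def fsup (B C : FS K) : FS K := ⟨B.1 ⊔ C.1, sup_le B.2.1 C.2.1, B.2.2.sup C.2.2⟩

/-- cyclic subgroups -/
def fcyc (k : K) : FS K := ⟨Subgroup.zpowers (k : G), by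
  rw [Subgroup.zpowers_le]; exact k.2, ⟨{(k : G)}, by simp [Subgroup.zpowers_eq_closure]⟩⟩

variable {K}

theorem mem_fcyc (k : K) : (k : G) ∈ (fcyc K k).1 := Subgroup.mem_zpowers _

include hfree in
/-- **Limits of representations** -/
theorem exists_fg_of_mem_Jid {I : Type} [Finite I] (s : I → G) (hs : ∀ i, s i ∈ K)
    (f : MvPolynomial (I × Fin 2 × Fin 2) (ZMod p)) (hf : f ∈ Jid p s K) :
    ∃ B : FS K, (∀ i, s i ∈ B.1) ∧ f ∈ Jid p s B.1 := by
  classical
  by_contra hcon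
  push Not at hcon
  choose r hr using exists_iso K hfree
  have e : ∀ B : FS K, FreeGroup (Fin (r B)) ≃* B.1 := fun B => (hr B).some
  -- the product of the generic fields
  let A : Type := ∀ B : FS K, EE p (r B)
  let M : K → Fin 2 → Fin 2 → A := fun k i j B =>
    if h : (k : G) ∈ B.1 then (FreeGroup.lift (Agen p (r B)) ((e B).symm ⟨k, h⟩)).1 i j else 0
  let B₀ : FS K := ⟨Subgroup.closure (Set.range s), by
    rw [Subgroup.closure_le]
    rintro _ ⟨i, rfl⟩
    exact hs i, (Subgroup.fg_iff _).2 ⟨Set.range s, rfl, Set.finite_range s⟩⟩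
  let I₀ : Ideal A :=
    { carrier := {x | ∃ B : FS K, ∀ C : FS K, B.1 ≤ C.1 → x C = 0}
      add_mem' := by
        rintro x y ⟨B, hB⟩ ⟨C, hC⟩
        refine ⟨fsup K B C, fun D hD => ?_⟩
        rw [Pi.add_apply, hB D (le_sup_left.trans hD), hC D (le_sup_right.trans hD), add_zero]
      zero_mem' := ⟨B₀, fun _ _ => rfl⟩
      smul_mem' := by
        rintro c x ⟨B, hB⟩
        refine ⟨B, fun D hD => ?_⟩
        rw [smul_eq_mul, Pi.mul_apply, hB D hD, mul_zero] }
  have hI₀ : I₀ ≠ ⊤ := by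
    rw [Ideal.ne_top_iff_one]
    rintro ⟨B, hB⟩
    exact one_ne_zero (hB B le_rfl)
  obtain ⟨mm, hmm, hle⟩ := Ideal.exists_le_maximal I₀ hI₀
  let _ : Field (A ⧸ mm) := Ideal.Quotient.field mm
  have hmk : ∀ x y : A, (∃ B : FS K, ∀ C : FS K, B.1 ≤ C.1 → x C = y C) →
      Ideal.Quotient.mk mm x = Ideal.Quotient.mk mm y := by
    rintro x y ⟨B, hB⟩
    rw [Ideal.Quotient.eq]
    apply hle
    refine ⟨B, fun C hC => ?_⟩
    rw [Pi.sub_apply, hB C hC, sub_self]
  let ρ₀ : K →* Matrix (Fin 2) (Fin 2) (A ⧸ mm) :=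
    { toFun := fun k => Matrix.of fun i j => Ideal.Quotient.mk mm (M k i j)
      map_one' := by
        ext i j
        rw [Matrix.of_apply, Matrix.one_apply]
        have h1 : Ideal.Quotient.mk mm (M 1 i j) =
            Ideal.Quotient.mk mm (if i = j then 1 else 0) := by
          refine hmk _ _ ⟨B₀, fun C _ => ?_⟩
          have h2 : ((1 : K) : G) ∈ C.1 := C.1.one_mem
          simp only [M, dif_pos h2]
          have h3 : (⟨((1 : K) : G), h2⟩ : C.1) = 1 := rfl
          rw [h3, map_one, map_one]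
          by_cases hij : i = j
          · subst hij
            rw [if_pos rfl]
            exact Matrix.one_apply_eq i
          · rw [if_neg hij]
            exact Matrix.one_apply_ne hij
        rw [h1]
        split_ifs <;> simp
      map_mul' := by
        intro k l
        ext i j
        rw [Matrix.of_apply, Matrix.mul_apply]
        simp only [Matrix.of_apply]
        simp only [← map_mul]
        rw [← map_sum]
        refine hmk _ _ ⟨fsup K (fcyc K k) (fcyc K l), fun C hC => ?_⟩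
        have hk : (k : G) ∈ C.1 :=
          hC ((le_sup_left : (fcyc K k).1 ≤ (fcyc K k).1 ⊔ (fcyc K l).1) (mem_fcyc k))
        have hl : (l : G) ∈ C.1 :=
          hC ((le_sup_right : (fcyc K l).1 ≤ (fcyc K k).1 ⊔ (fcyc K l).1) (mem_fcyc l))
        have hkl : ((k * l : K) : G) ∈ C.1 := C.1.mul_mem hk hl
        rw [Finset.sum_apply]
        have h4 : ∀ c, (M k i c * M l c j) C =
            (FreeGroup.lift (Agen p (r C)) ((e C).symm ⟨k, hk⟩)).1 i c *
              (FreeGroup.lift (Agen p (r C)) ((e C).symm ⟨l, hl⟩)).1 c j := by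
          intro c
          change M k i c C * M l c j C = _
          simp only [M, dif_pos hk, dif_pos hl]
        rw [Finset.sum_congr rfl fun c _ => h4 c]
        have h5 : M (k * l) i j C =
            (FreeGroup.lift (Agen p (r C)) ((e C).symm ⟨((k * l : K) : G), hkl⟩)).1 i j :=
          dif_pos hkl
        rw [h5]
        have h3 : (⟨((k * l : K) : G), hkl⟩ : C.1) = ⟨k, hk⟩ * ⟨l, hl⟩ := rfl
        rw [h3, map_mul, map_mul]
        change ((FreeGroup.lift (Agen p (r C)) ((e C).symm ⟨k, hk⟩)).1 *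
          (FreeGroup.lift (Agen p (r C)) ((e C).symm ⟨l, hl⟩)).1) i j = _
        rw [Matrix.mul_apply] }
  let ρ : K →* Matrix.GeneralLinearGroup (Fin 2) (A ⧸ mm) := ρ₀.toHomUnits
  have hρ : ∀ k i j, (ρ k).1 i j = Ideal.Quotient.mk mm (M k i j) := fun _ _ _ => rfl
  rw [mem_Jid] at hf
  have h1 := hf (A ⧸ mm) ρ (fun i => ⟨s i, hs i⟩) (fun _ => rfl)
  simp only [hρ] at h1
  have h2 := map_aeval_zmod (p := p) (Ideal.Quotient.mk mm)
    (fun v : I × Fin 2 × Fin 2 => M ⟨s v.1, hs v.1⟩ v.2.1 v.2.2) f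
  rw [h1, Ideal.Quotient.eq_zero_iff_mem] at h2
  obtain ⟨x, hx⟩ : ∃ x : A, x = aeval (fun v : I × Fin 2 × Fin 2 =>
    M ⟨s v.1, hs v.1⟩ v.2.1 v.2.2) f := ⟨_, rfl⟩
  rw [← hx] at h2
  have hxB : ∀ B : FS K, B₀.1 ≤ B.1 → x B ≠ 0 := by
    intro B hB h3
    have hsB : ∀ i, s i ∈ B.1 := fun i => hB (Subgroup.subset_closure ⟨i, rfl⟩)
    apply hcon B hsB
    refine mem_Jid_of_gen (e B) s (fun i => ⟨s i, hsB i⟩) (fun _ => rfl) f ?_
    have h4 := map_aeval_zmod (p := p) (Pi.evalRingHom (fun B : FS K => EE p (r B)) B)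
      (fun v : I × Fin 2 × Fin 2 => M ⟨s v.1, hs v.1⟩ v.2.1 v.2.2) f
    rw [← hx] at h4
    have h5 : (Pi.evalRingHom (fun B : FS K => EE p (r B)) B) x = 0 := h3
    rw [h5] at h4
    rw [eq_comm]
    refine h4.trans ?_
    congr 2
    funext v
    change M ⟨s v.1, hs v.1⟩ v.2.1 v.2.2 B = _
    simp only [M, dif_pos (hsB v.1)]
  have h6 : x * (fun B => (x B)⁻¹) - 1 ∈ mm := by
    apply hle
    refine ⟨B₀, fun B hB => ?_⟩
    rw [Pi.sub_apply, Pi.mul_apply, Pi.one_apply, mul_inv_cancel₀ (hxB B hB), sub_self]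
  apply hmm.ne_top
  rw [Ideal.eq_top_iff_one]
  have h7 := mm.sub_mem (mm.mul_mem_right (fun B => (x B)⁻¹) h2) h6
  rwa [sub_sub_cancel] at h7

include hfree in
/-- the ideal of relations of `K` is prime -/
theorem isPrime_Jid {I : Type} (s : I → G) (hs : ∀ i, s i ∈ K) : (Jid p s K).IsPrime := by
  classical
  refine ⟨?_, ?_⟩
  · rw [Ideal.ne_top_iff_one]
    intro h
    rw [mem_Jid] at h
    have h1 := h (ZMod p) 1 (fun i => ⟨s i, hs i⟩) (fun _ => rfl)
    rw [map_one] at h1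
    exact one_ne_zero h1
  · intro f g hfg
    by_contra hcon
    push Not at hcon
    obtain ⟨hf, hg⟩ := hcon
    -- finitely many variables
    let T : Finset I := (f.vars ∪ g.vars).image Prod.fst
    let j : T → I := Subtype.val
    have hran : ∀ h : MvPolynomial (I × Fin 2 × Fin 2) (ZMod p), h.vars ⊆ f.vars ∪ g.vars →
        ∃ h' : MvPolynomial (T × Fin 2 × Fin 2) (ZMod p), rename (Prod.map j id) h' = h := by
      intro h hh
      refine exists_rename_eq_of_vars_subset_range h _ ?_ ?_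
      · intro a b hab
        obtain ⟨a1, a2⟩ := a
        obtain ⟨b1, b2⟩ := b
        simp only [Prod.map_apply, Prod.mk.injEq, id] at hab
        exact Prod.ext (Subtype.ext hab.1) hab.2
      · intro v hv
        have h1 : v.1 ∈ T := Finset.mem_image_of_mem _ (hh hv)
        exact ⟨(⟨v.1, h1⟩, v.2), rfl⟩
    obtain ⟨f', hf'⟩ := hran f Finset.subset_union_left
    obtain ⟨g', hg'⟩ := hran g Finset.subset_union_right
    rw [← hf', rename_mem_Jid s j K hs] at hf
    rw [← hg', rename_mem_Jid s j K hs] at hg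
    rw [← hf', ← hg', ← map_mul, rename_mem_Jid s j K hs] at hfg
    obtain ⟨B, hsB, hB⟩ := exists_fg_of_mem_Jid hfree (s ∘ j) (fun i => hs _) _ hfg
    obtain ⟨r, ⟨e⟩⟩ := exists_iso K hfree B
    exact mul_notMem_Jid_of_free (s ∘ j) e hsB
      (fun h => hf (Jid_mono p B.2.1 hsB h)) (fun h => hg (Jid_mono p B.2.1 hsB h)) hB

end ultra

end Pool.Agent.R664.DF
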