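import Mathlib
import Pool.Agent.H71R2.Frob.RF

/-!
# Representations compatible with Frobenius, outside a given hypersurface
-/

set_option autoImplicit false

namespace Pool.Agent.R664.DF

open MvPolynomial Pool.Agent.H71R2.Frob

variable {p : ℕ} [Fact p.Prime] {r : ℕ}

/-- **Frobenius representations.** -/
theorem exists_frobenius_rep {B : Type} [Group B] (e : FreeGroup (Fin r) ≃* B)
    {ι : Type} [Finite ι] (b b' : ι → B)
    (hJ : ∀ P : MvPolynomial (ι × Fin 2 × Fin 2) (ZMod p),
      aeval (fun v : ι × Fin 2 × Fin 2 =>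
        (FreeGroup.lift (Agen p r) (e.symm (b v.1))).1 v.2.1 v.2.2) P = 0 ↔
      aeval (fun v : ι × Fin 2 × Fin 2 =>
        (FreeGroup.lift (Agen p r) (e.symm (b' v.1))).1 v.2.1 v.2.2) P = 0)
    (D₀ : MvPolynomial (ι × Fin 2 × Fin 2) (ZMod p))
    (hD₀ : aeval (fun v : ι × Fin 2 × Fin 2 =>
        (FreeGroup.lift (Agen p r) (e.symm (b v.1))).1 v.2.1 v.2.2) D₀ ≠ 0) :
    ∃ (j : ℕ) (κ : Type) (_ : Field κ) (_ : Finite κ) (_ : Algebra (ZMod p) κ) (_ : CharP κ p)
      (ρ : B →* Matrix.GeneralLinearGroup (Fin 2) κ),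
      (∀ i, ρ (b' i) = Matrix.GeneralLinearGroup.map (iterateFrobenius κ p j) (ρ (b i))) ∧
      aeval (fun v : ι × Fin 2 × Fin 2 => (ρ (b v.1)).1 v.2.1 v.2.2) D₀ ≠ 0 := by
  classical
  rcases Nat.eq_zero_or_pos r with hr | hr
  · subst hr
    have hone : ∀ h : FreeGroup (Fin 0), h = 1 := fun h => Subsingleton.elim _ _
    refine ⟨0, ZMod p, inferInstance, inferInstance, inferInstance, inferInstance, 1, ?_, ?_⟩
    · intro i
      simp
    · intro h
      apply hD₀
      have h1 := map_aeval_zmod (p := p) (algebraMap (ZMod p) (EE p 0))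
        (fun v : ι × Fin 2 × Fin 2 =>
          (((1 : B →* Matrix.GeneralLinearGroup (Fin 2) (ZMod p)) (b v.1)).1 v.2.1 v.2.2)) D₀
      rw [h, map_zero] at h1
      rw [h1]
      congr 2
      funext v
      rw [hone (e.symm (b v.1)), map_one, MonoidHom.one_apply, Units.val_one, Units.val_one,
        Matrix.one_apply, Matrix.one_apply]
      split_ifs <;> simp
  choose m W hW using word_poly p r
  obtain ⟨σ, hσ⟩ := exists_sigma (trdeg_EE (p := p) (r := r)) _ _ hJ
  obtain ⟨M₀, P₀, hP₀⟩ := frac_poly (p := p) (DD p r)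
    (fun v : ι × Fin 2 × Fin 2 => W (e.symm (b v.1)) v.2.1 v.2.2)
    (fun v => m (e.symm (b v.1))) D₀
  -- the exceptional polynomial
  let D : RR p r := DD p r * P₀
  have hD : D ≠ 0 := by
    refine mul_ne_zero (DD_ne p r) ?_
    intro h
    apply hD₀
    have h1 := hP₀ (EE p r) (aeval (fun v : Fin r × Fin 2 × Fin 2 =>
      (Agen p r v.1).1 v.2.1 v.2.2)) (aeval_DD_ne _)
      (fun v => (FreeGroup.lift (Agen p r) (e.symm (b v.1))).1 v.2.1 v.2.2) (fun v => by
        rw [aeval_DD]
        exact hW _ (EE p r) (Agen p r) _ _)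
    rw [h, map_zero] at h1
    exact (mul_eq_zero.1 h1).resolve_right (pow_ne_zero _ (aeval_DD_ne _))
  -- reindexing
  obtain ⟨n, ⟨eq⟩⟩ : ∃ n, Nonempty (Fin (n + 1) ≃ Fin r × Fin 2 × Fin 2) := by
    have hcard : 0 < Fintype.card (Fin r × Fin 2 × Fin 2) := by
      simp only [Fintype.card_prod, Fintype.card_fin]
      omega
    obtain ⟨n, hn⟩ := Nat.exists_eq_succ_of_ne_zero hcard.ne'
    exact ⟨n, ⟨(Fintype.equivFinOfCardEq hn).symm⟩⟩
  let x : Fin (n + 1) → AlgebraicClosure (EE p r) := fun i => xx (eq i)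
  let y : Fin (n + 1) → AlgebraicClosure (EE p r) :=
    fun i => σ (algebraMap (RR p r) (EE p r) (X (eq i)))
  have hx : AlgebraicIndependent (ZMod p) x := (xx_ai (p := p) (r := r)).comp eq eq.injective
  have hy : AlgebraicIndependent (ZMod p) y := (yy_ai σ).comp eq eq.injective
  have hrange : Set.range x = Set.range (xx (p := p) (r := r)) := by
    ext c
    constructor
    · rintro ⟨i, rfl⟩; exact ⟨eq i, rfl⟩
    · rintro ⟨v, rfl⟩; exact ⟨eq.symm v, by simp [x]⟩
  have halg : ∀ i, IsAlgebraic (Algebra.adjoin (ZMod p) (Set.range x)) (y i) := by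
    intro i
    rw [hrange]
    exact alg_xx _
  have hD' : rename eq.symm D ≠ 0 := by
    intro h
    exact hD ((rename_injective _ eq.symm.injective) (by rw [h, map_zero]))
  obtain ⟨j, κ, _, hfin, _, a, haD, haG⟩ := frobenius_points p x y hx hy halg _ hD'
  have hch : CharP κ p := charP_of_injective_algebraMap (algebraMap (ZMod p) κ).injective p
  -- the point
  let a' : Fin r × Fin 2 × Fin 2 → κ := fun v => a (eq.symm v)
  have haD' : aeval a' D ≠ 0 := by
    rw [aeval_rename] at haD
    exact haD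
  have haDD : aeval a' (DD p r) ≠ 0 := by
    intro h
    apply haD'
    rw [map_mul, h, zero_mul]
  have hdet : ∀ s, (Matrix.of fun i j => a' (s, i, j) : Matrix (Fin 2) (Fin 2) κ).det ≠ 0 := by
    intro s h
    apply haDD
    rw [DD, map_prod]
    refine Finset.prod_eq_zero (Finset.mem_univ s) ?_
    rw [Matrix.det_fin_two] at h
    simpa [dd] using h
  let A : Fin r → Matrix.GeneralLinearGroup (Fin 2) κ := fun s =>
    Matrix.GeneralLinearGroup.mkOfDetNeZero _ (hdet s)
  have hA : (fun v : Fin r × Fin 2 × Fin 2 => (A v.1).1 v.2.1 v.2.2) = a' := by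
    funext v
    rfl
  have hdd : aeval a' (DD p r) = ∏ s, (A s).1.det := by rw [← aeval_DD (p := p), hA]
  -- relations
  have hrel : ∀ i k l,
      (FreeGroup.lift A (e.symm (b' i))).1 k l =
        ((FreeGroup.lift A (e.symm (b i))).1 k l) ^ p ^ j := by
    intro i k l
    set h := e.symm (b i) with hh
    set h' := e.symm (b' i) with hh'
    -- the relation polynomial
    let G : MvPolynomial (Fin (n + 1) ⊕ Fin (n + 1)) (ZMod p) :=
      rename (fun v => Sum.inr (eq.symm v)) (W h k l) *
          rename (fun v => Sum.inl (eq.symm v)) (DD p r ^ m h') -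
        rename (fun v => Sum.inl (eq.symm v)) (W h' k l) *
          rename (fun v => Sum.inr (eq.symm v)) (DD p r ^ m h)
    have hGgen : ∀ (Ω : Type) [Field Ω] [Algebra (ZMod p) Ω] (c d : Fin (n + 1) → Ω),
        aeval (Sum.elim c d) G =
          aeval (fun v => d (eq.symm v)) (W h k l) * aeval (fun v => c (eq.symm v)) (DD p r) ^ m h' -
          aeval (fun v => c (eq.symm v)) (W h' k l) *
            aeval (fun v => d (eq.symm v)) (DD p r) ^ m h := by
      intro Ω _ _ c d
      simp only [G, map_sub, map_mul, aeval_rename, map_pow]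
      rfl
    have hG0 : aeval (Sum.elim x y) G = 0 := by
      rw [hGgen]
      have hx' : (fun v => x (eq.symm v)) = fun v => (xx v : AlgebraicClosure (EE p r)) := by
        funext v; simp [x]
      have hy' : (fun v => y (eq.symm v)) = fun v => σ (algebraMap (RR p r) (EE p r) (X v)) := by
        funext v; simp [y]
      have hxP : ∀ P : RR p r, aeval (fun v => x (eq.symm v)) P =
          algebraMap (EE p r) (AlgebraicClosure (EE p r)) (algebraMap (RR p r) (EE p r) P) := by
        intro P
        rw [hx', ← aeval_gen P, map_aeval_zmod]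
        rfl
      have hyP : ∀ P : RR p r, aeval (fun v => y (eq.symm v)) P =
          σ (algebraMap (RR p r) (EE p r) P) := by
        intro P
        have h2 := map_aeval_zmod (p := p) (σ : EE p r →+* AlgebraicClosure (EE p r))
          (fun v : Fin r × Fin 2 × Fin 2 => (Agen p r v.1).1 v.2.1 v.2.2) P
        rw [hy', ← aeval_gen P]
        exact h2.symm
      have h1 := hW h (EE p r) (Agen p r) k l
      have h2 := hW h' (EE p r) (Agen p r) k l
      rw [← aeval_DD (p := p), aeval_gen, aeval_gen] at h1 h2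
      rw [hyP, hxP, hxP, hyP, ← h1, ← h2, map_mul, map_mul, map_pow, map_pow]
      have h3 := hσ (i, k, l)
      simp only at h3
      rw [h3]
      ring
    have h1 := haG G hG0
    rw [hGgen] at h1
    have hpow : ∀ P : RR p r, aeval (fun v => a (eq.symm v) ^ p ^ j) P = aeval a' P ^ p ^ j := by
      intro P
      have h2 := map_aeval_zmod (p := p) (iterateFrobenius κ p j) a' P
      rw [iterateFrobenius_def] at h2
      rw [h2]
      rfl
    rw [hpow, hpow] at h1
    have h2 := hW h κ A k l
    have h3 := hW h' κ A k l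
    rw [hA, ← hdd] at h2 h3
    change aeval a' (W h k l) ^ p ^ j * aeval a' (DD p r) ^ m h' -
      aeval a' (W h' k l) * (aeval a' (DD p r) ^ p ^ j) ^ m h = 0 at h1
    rw [← h2, ← h3] at h1
    have h4 : (((FreeGroup.lift A h).1 k l) ^ p ^ j - (FreeGroup.lift A h').1 k l) *
        (aeval a' (DD p r) ^ m h' * (aeval a' (DD p r) ^ p ^ j) ^ m h) = 0 := by
      rw [← h1]
      ring
    rcases mul_eq_zero.1 h4 with h5 | h5
    · exact (sub_eq_zero.1 h5).symm
    · exact absurd h5 (mul_ne_zero (pow_ne_zero _ haDD) (pow_ne_zero _ (pow_ne_zero _ haDD)))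
  refine ⟨j, κ, inferInstance, hfin, inferInstance, hch,
    (FreeGroup.lift A).comp e.symm.toMonoidHom, ?_, ?_⟩
  · intro i
    apply Units.ext
    ext k l
    have := hrel i k l
    simpa [iterateFrobenius_def] using this
  · intro h
    apply haD'
    have h1 := hP₀ κ (aeval (fun v : Fin r × Fin 2 × Fin 2 => (A v.1).1 v.2.1 v.2.2))
      (aeval_DD_ne _) (fun v => (FreeGroup.lift A (e.symm (b v.1))).1 v.2.1 v.2.2) (fun v => by
        rw [aeval_DD]
        exact hW _ κ A _ _)
    have h2 : aeval (fun v : ι × Fin 2 × Fin 2 =>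
        (FreeGroup.lift A (e.symm (b v.1))).1 v.2.1 v.2.2) D₀ = 0 := h
    rw [h2, zero_mul, hA] at h1
    rw [map_mul, ← h1, mul_zero]

end Pool.Agent.R664.DF
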