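import Mathlib

/-!
# A finiteness property of prime difference ideals

Let `P` be a prime ideal of the ring of difference polynomials in finitely many difference
variables over a field `k` (with trivial action), such that `f ∈ P` if and only if the shift of
`f` is in `P`.  Then there are finitely many elements of `P` and an element `D ∉ P` such that each
point in a difference field at which these elements vanish and `D` does not is a zero of `P`.
-/

set_option autoImplicit false

namespace Pool.Agent.R664.DF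

open MvPolynomial

variable {k : Type} [Field k] {m : ℕ}

/-- difference variables -/
abbrev Vr (m : ℕ) : Type := Fin m × ℕ

/-- the shift -/
noncomputable def sh (k : Type) [Field k] (m : ℕ) :
    MvPolynomial (Vr m) k →ₐ[k] MvPolynomial (Vr m) k :=
  rename fun v => (v.1, v.2 + 1)

/-- the variables before `(v, j)` -/
def SS (m : ℕ) (v j : ℕ) : Set (Vr m) := {w | w.1.val < v ∨ (w.1.val = v ∧ w.2 < j)}

/-- polynomials in the variables before `(v, j)` -/
noncomputable abbrev AA (k : Type) [Field k] (m v j : ℕ) : Subalgebra k (MvPolynomial (Vr m) k) :=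
  supported k (SS m v j)

theorem sh_mem {v j : ℕ} {f : MvPolynomial (Vr m) k} (hf : f ∈ AA k m v j) :
    sh k m f ∈ AA k m v (j + 1) := by
  have h1 : AA k m v j ≤ (AA k m v (j + 1)).comap (sh k m) := by
    rw [AA, supported]
    refine Algebra.adjoin_le ?_
    rintro _ ⟨w, hw, rfl⟩
    change sh k m (X w) ∈ AA k m v (j + 1)
    rw [sh, rename_X]
    apply Algebra.subset_adjoin
    refine ⟨_, ?_, rfl⟩
    rcases hw with h | ⟨h, h'⟩
    · exact Or.inl h
    · exact Or.inr ⟨h, by simpa using h'⟩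
  exact h1 hf

/-- the shift on polynomials before `(v, j)` -/
noncomputable def shA (k : Type) [Field k] (m v j : ℕ) : AA k m v j →+* AA k m v (j + 1) :=
  ((sh k m).toRingHom.comp (AA k m v j).val.toRingHom).codRestrict (AA k m v (j + 1)).toSubring
    fun f => sh_mem f.2

theorem shA_coe {v j : ℕ} (f : AA k m v j) :
    ((shA k m v j f : AA k m v (j + 1)) : MvPolynomial (Vr m) k) = sh k m f := rfl

/-- evaluation of a polynomial over `AA` -/
noncomputable def evA {v j : ℕ} (x : MvPolynomial (Vr m) k) (F : Polynomial (AA k m v j)) :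
    MvPolynomial (Vr m) k :=
  F.eval₂ (AA k m v j).val.toRingHom x

theorem evA_map {v j : ℕ} (x : MvPolynomial (Vr m) k) (F : Polynomial (AA k m v j)) :
    evA (sh k m x) (F.map (shA k m v j)) = sh k m (evA x F) := by
  unfold evA
  rw [Polynomial.eval₂_map]
  have h2 := Polynomial.hom_eval₂ F (AA k m v j).val.toRingHom (sh k m).toRingHom x
  refine Eq.trans ?_ h2.symm
  rfl

/-- each polynomial in the variables up to `(v, j)` is a polynomial in the last one -/
theorem exists_evA {v j : ℕ} (hv : v < m) {f : MvPolynomial (Vr m) k}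
    (hf : f ∈ AA k m v (j + 1)) :
    ∃ F : Polynomial (AA k m v j), evA (X (⟨v, hv⟩, j)) F = f := by
  let φ : Polynomial (AA k m v j) →ₐ[k] MvPolynomial (Vr m) k :=
    (Polynomial.aeval (R := AA k m v j) (X (⟨v, hv⟩, j) : MvPolynomial (Vr m) k)).restrictScalars k
  have h1 : AA k m v (j + 1) ≤ φ.range := by
    rw [AA, supported]
    refine Algebra.adjoin_le ?_
    rintro _ ⟨w, hw, rfl⟩
    by_cases h : w.1.val = v ∧ w.2 = j
    · refine ⟨Polynomial.X, ?_⟩
      have h2 : w = (⟨v, hv⟩, j) := Prod.ext (Fin.ext h.1) h.2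
      rw [h2]
      exact Polynomial.aeval_X _
    · have h3 : w ∈ SS m v j := by
        rcases hw with h' | ⟨h', h''⟩
        · exact Or.inl h'
        · refine Or.inr ⟨h', ?_⟩
          have : w.2 ≠ j := fun hj => h ⟨h', hj⟩
          omega
      have h4 : (X w : MvPolynomial (Vr m) k) ∈ AA k m v j := Algebra.subset_adjoin ⟨w, h3, rfl⟩
      refine ⟨Polynomial.C ⟨X w, h4⟩, ?_⟩
      exact Polynomial.aeval_C _ _
  obtain ⟨F, hF⟩ := h1 hf
  exact ⟨F, hF⟩

section prime

variable (P : Ideal (MvPolynomial (Vr m) k))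

/-- the polynomials describing the extension by the variable `(v, j)` -/
def Ann (v j : ℕ) (hv : v < m) (F : Polynomial (AA k m v j)) : Prop :=
  evA (X (⟨v, hv⟩, j)) F ∈ P ∧ (F.leadingCoeff : MvPolynomial (Vr m) k) ∉ P

/-- the degrees -/
def Dg (v j : ℕ) (hv : v < m) : Set ℕ := {d | ∃ F : Polynomial (AA k m v j), Ann P v j hv F ∧
  F.natDegree = d}

variable {P}

theorem natDegree_map_shA (hP : ∀ f, sh k m f ∈ P ↔ f ∈ P) {v j : ℕ}
    (F : Polynomial (AA k m v j)) (hF : (F.leadingCoeff : MvPolynomial (Vr m) k) ∉ P) :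
    (F.map (shA k m v j)).natDegree = F.natDegree ∧
      (F.map (shA k m v j)).leadingCoeff = shA k m v j F.leadingCoeff := by
  have h1 : shA k m v j F.leadingCoeff ≠ 0 := by
    intro h
    apply hF
    rw [← hP, ← shA_coe, h]
    exact P.zero_mem
  exact ⟨Polynomial.natDegree_map_of_leadingCoeff_ne_zero _ h1,
    Polynomial.leadingCoeff_map_of_leadingCoeff_ne_zero _ h1⟩

theorem sh_X (v : Fin m) (j : ℕ) : sh k m (X (v, j)) = X (v, j + 1) := by
  rw [sh, rename_X]

theorem Ann.shift (hP : ∀ f, sh k m f ∈ P ↔ f ∈ P) {v j : ℕ} {hv : v < m}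
    {F : Polynomial (AA k m v j)} (hF : Ann P v j hv F) :
    Ann P v (j + 1) hv (F.map (shA k m v j)) := by
  obtain ⟨h1, h2⟩ := natDegree_map_shA hP F hF.2
  refine ⟨?_, ?_⟩
  · rw [← sh_X, evA_map, hP]
    exact hF.1
  · rw [h2, shA_coe, hP]
    exact hF.2

theorem Dg_mono (hP : ∀ f, sh k m f ∈ P ↔ f ∈ P) {v j : ℕ} {hv : v < m} :
    Dg P v j hv ⊆ Dg P v (j + 1) hv := by
  rintro d ⟨F, hF, rfl⟩
  exact ⟨_, hF.shift hP, (natDegree_map_shA hP F hF.2).1⟩

variable {Ω : Type} [Field Ω] [Algebra k Ω]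

/-- the relations before `(v, j)` are satisfied -/
def Good (P : Ideal (MvPolynomial (Vr m) k)) (E : MvPolynomial (Vr m) k →ₐ[k] Ω) (v j : ℕ) : Prop :=
  ∀ f ∈ P, f ∈ AA k m v j → E f = 0

/-- the condition for the step -/
def Cnd (P : Ideal (MvPolynomial (Vr m) k)) (E : MvPolynomial (Vr m) k →ₐ[k] Ω) (v j : ℕ)
    (hv : v < m) : Prop :=
  (Dg P v j hv).Nonempty → ∃ F : Polynomial (AA k m v j), Ann P v j hv F ∧
    F.natDegree = sInf (Dg P v j hv) ∧ E (evA (X (⟨v, hv⟩, j)) F) = 0 ∧
    E (F.leadingCoeff : MvPolynomial (Vr m) k) ≠ 0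

theorem evA_add {v j : ℕ} (x : MvPolynomial (Vr m) k) (F F' : Polynomial (AA k m v j)) :
    evA x (F + F') = evA x F + evA x F' := Polynomial.eval₂_add _ _

theorem evA_sub {v j : ℕ} (x : MvPolynomial (Vr m) k) (F F' : Polynomial (AA k m v j)) :
    evA x (F - F') = evA x F - evA x F' := Polynomial.eval₂_sub _

theorem evA_mul {v j : ℕ} (x : MvPolynomial (Vr m) k) (F F' : Polynomial (AA k m v j)) :
    evA x (F * F') = evA x F * evA x F' := Polynomial.eval₂_mul _ _

theorem evA_C {v j : ℕ} (x : MvPolynomial (Vr m) k) (c : AA k m v j) :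
    evA x (Polynomial.C c) = c := Polynomial.eval₂_C _ _

theorem evA_mono {v j : ℕ} (x : MvPolynomial (Vr m) k) (c : AA k m v j) (n : ℕ) :
    evA x (Polynomial.monomial n c) = c * x ^ n := Polynomial.eval₂_monomial _ _

theorem good_step [P.IsPrime] {E : MvPolynomial (Vr m) k →ₐ[k] Ω} {v j : ℕ} (hv : v < m)
    (hG : Good P E v j) (hC : Cnd P E v j hv) : Good P E v (j + 1) := by
  have key : ∀ F : Polynomial (AA k m v j), evA (X (⟨v, hv⟩, j)) F ∈ P →
      E (evA (X (⟨v, hv⟩, j)) F) = 0 := by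
    intro F
    induction hd : F.degree using WellFoundedLT.induction generalizing F with
    | ind d ih =>
      intro hF
      by_cases h0 : F = 0
      · rw [h0, evA, Polynomial.eval₂_zero, map_zero]
      by_cases hl : (F.leadingCoeff : MvPolynomial (Vr m) k) ∈ P
      · have h1 : E (F.leadingCoeff : MvPolynomial (Vr m) k) = 0 := hG _ hl F.leadingCoeff.2
        have h2 : evA (X (⟨v, hv⟩, j)) F = evA (X (⟨v, hv⟩, j)) F.eraseLead +
            (F.leadingCoeff : MvPolynomial (Vr m) k) * X (⟨v, hv⟩, j) ^ F.natDegree := by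
          conv_lhs => rw [← F.eraseLead_add_monomial_natDegree_leadingCoeff]
          rw [evA_add, evA_mono]
        have h3 : evA (X (⟨v, hv⟩, j)) F.eraseLead ∈ P := by
          have h4 : evA (X (⟨v, hv⟩, j)) F.eraseLead = evA (X (⟨v, hv⟩, j)) F -
            (F.leadingCoeff : MvPolynomial (Vr m) k) * X (⟨v, hv⟩, j) ^ F.natDegree := by
            rw [h2]; ring
          rw [h4]
          exact P.sub_mem hF (P.mul_mem_right _ hl)
        have h5 := ih _ (hd ▸ Polynomial.degree_eraseLead_lt h0) F.eraseLead rfl h3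
        rw [h2, map_add, map_mul, h1, h5, zero_mul, add_zero]
      · have hA : Ann P v j hv F := ⟨hF, hl⟩
        obtain ⟨F₀, hF₀, hdeg, hE₀, hEc⟩ := hC ⟨_, F, hA, rfl⟩
        have hle : F₀.natDegree ≤ F.natDegree := by
          rw [hdeg]
          exact Nat.sInf_le ⟨F, hA, rfl⟩
        obtain ⟨c, hc⟩ : ∃ c, c = F₀.leadingCoeff := ⟨_, rfl⟩
        obtain ⟨b, hb⟩ : ∃ b, b = F.leadingCoeff := ⟨_, rfl⟩
        rw [← hc] at hEc
        have hc0 : c ≠ 0 := by
          rintro rfl
          exact hEc (by simp)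
        have hb0 : b ≠ 0 := by
          rw [hb]
          exact Polynomial.leadingCoeff_ne_zero.2 h0
        let F' : Polynomial (AA k m v j) := Polynomial.C c * F -
          Polynomial.monomial (F.natDegree - F₀.natDegree) b * F₀
        have hF₀0 : F₀ ≠ 0 := by
          rintro rfl
          exact hc0 (by rw [hc]; simp)
        have hd1 : (Polynomial.C c * F).degree = F.degree := Polynomial.degree_C_mul hc0
        have hd2 : (Polynomial.monomial (F.natDegree - F₀.natDegree) b * F₀).degree =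
            F.degree := by
          rw [Polynomial.degree_mul, Polynomial.degree_monomial _ hb0,
            Polynomial.degree_eq_natDegree hF₀0, Polynomial.degree_eq_natDegree h0]
          norm_cast
          omega
        have hlt : F'.degree < F.degree := by
          have := Polynomial.degree_sub_lt (hd1.trans hd2.symm)
            (mul_ne_zero (by simpa using hc0) h0) (by
              rw [Polynomial.leadingCoeff_mul, Polynomial.leadingCoeff_C,
                Polynomial.leadingCoeff_mul, Polynomial.leadingCoeff_monomial, ← hc, ← hb,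
                mul_comm])
          rwa [hd1] at this
        have hev : evA (X (⟨v, hv⟩, j)) F' = (c : MvPolynomial (Vr m) k) *
            evA (X (⟨v, hv⟩, j)) F - (b : MvPolynomial (Vr m) k) *
              X (⟨v, hv⟩, j) ^ (F.natDegree - F₀.natDegree) * evA (X (⟨v, hv⟩, j)) F₀ := by
          change evA _ (Polynomial.C c * F -
            Polynomial.monomial (F.natDegree - F₀.natDegree) b * F₀) = _
          rw [evA_sub, evA_mul, evA_mul, evA_C, evA_mono]
        have hF'P : evA (X (⟨v, hv⟩, j)) F' ∈ P := by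
          rw [hev]
          exact P.sub_mem (P.mul_mem_left _ hF) (P.mul_mem_left _ hF₀.1)
        have h5 := ih _ (hd ▸ hlt) F' rfl hF'P
        rw [hev, map_sub, map_mul, map_mul, hE₀, mul_zero, sub_zero] at h5
        exact (mul_eq_zero.1 h5).resolve_left hEc
  intro f hf hfA
  obtain ⟨F, rfl⟩ := exists_evA hv hfA
  exact key F hf

theorem AA_zero {f : MvPolynomial (Vr m) k} (hf : f ∈ AA k m 0 0) : ∃ c : k, f = C c := by
  have h1 : SS m 0 0 = ∅ := by
    ext w
    simp [SS]
  rw [AA, h1, supported_empty] at hf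
  obtain ⟨c, hc⟩ := Algebra.mem_bot.1 hf
  exact ⟨c, hc.symm⟩

theorem AA_succ {v : ℕ} {f : MvPolynomial (Vr m) k} (hf : f ∈ AA k m (v + 1) 0) :
    ∃ j, f ∈ AA k m v j := by
  classical
  rw [AA, mem_supported] at hf
  refine ⟨(f.vars.sup fun w => w.2) + 1, ?_⟩
  rw [AA, mem_supported]
  intro w hw
  have h1 : w ∈ SS m (v + 1) 0 := hf hw
  have h2 : w.2 ≤ f.vars.sup fun w => w.2 := Finset.le_sup (f := fun w : Vr m => w.2) hw
  rcases h1 with h | ⟨_, h⟩
  · rcases Nat.lt_succ_iff_lt_or_eq.1 h with h | h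
    · exact Or.inl h
    · exact Or.inr ⟨h, by omega⟩
  · omega

theorem good_all [hPp : P.IsPrime] {E : MvPolynomial (Vr m) k →ₐ[k] Ω}
    (hC : ∀ v (hv : v < m) j, Cnd P E v j hv) : ∀ f ∈ P, E f = 0 := by
  have h1 : ∀ v, v ≤ m → Good P E v 0 := by
    intro v
    induction v with
    | zero =>
      intro _ f hf hfA
      obtain ⟨c, rfl⟩ := AA_zero hfA
      by_cases hc : c = 0
      · rw [hc, map_zero, map_zero]
      · exact absurd (P.eq_top_of_isUnit_mem hf ((IsUnit.mk0 c hc).map C)) hPp.ne_top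
    | succ v ih =>
      intro hv f hf hfA
      obtain ⟨j, hj⟩ := AA_succ hfA
      have h2 : ∀ j, Good P E v j := by
        intro j
        induction j with
        | zero => exact ih (by omega)
        | succ j ihj => exact good_step (by omega) ihj (hC v (by omega) j)
      exact h2 j f hf hj
  intro f hf
  refine h1 m le_rfl f hf ?_
  rw [AA, mem_supported]
  intro w _
  exact Or.inl w.1.2

/-- evaluation at a point of a difference field -/
noncomputable def evd (τ : Ω →ₐ[k] Ω) (a : Fin m → Ω) : MvPolynomial (Vr m) k →ₐ[k] Ω :=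
  aeval fun v : Vr m => τ^[v.2] (a v.1)

theorem evd_sh (τ : Ω →ₐ[k] Ω) (a : Fin m → Ω) (f : MvPolynomial (Vr m) k) :
    evd τ a (sh k m f) = τ (evd τ a f) := by
  have h : (evd τ a).comp (sh k m) = τ.comp (evd τ a) := by
    ext v
    simp only [AlgHom.comp_apply, sh, rename_X, evd, aeval_X]
    rw [Function.iterate_succ_apply']
  exact DFunLike.congr_fun h f

theorem Cnd.shift {τ : Ω →ₐ[k] Ω} {a : Fin m → Ω} (hP : ∀ f, sh k m f ∈ P ↔ f ∈ P) {v j : ℕ}
    {hv : v < m} (hne : (Dg P v j hv).Nonempty)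
    (hst : sInf (Dg P v (j + 1) hv) = sInf (Dg P v j hv)) (hC : Cnd P (evd τ a) v j hv) :
    Cnd P (evd τ a) v (j + 1) hv := by
  intro _
  obtain ⟨F, h1, h2, h3, h4⟩ := hC hne
  obtain ⟨h5, h6⟩ := natDegree_map_shA hP F h1.2
  refine ⟨F.map (shA k m v j), h1.shift hP, ?_, ?_, ?_⟩
  · rw [h5, h2, hst]
  · rw [← sh_X, evA_map, evd_sh, h3, map_zero]
  · rw [h6, shA_coe, evd_sh]
    intro h
    exact h4 (τ.toRingHom.injective (by rw [map_zero]; exact h))

/-- **Finiteness of prime difference ideals** -/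
theorem exists_basis [hPp : P.IsPrime] (hP : ∀ f, sh k m f ∈ P ↔ f ∈ P) :
    ∃ (Φ : Finset (MvPolynomial (Vr m) k)) (D : MvPolynomial (Vr m) k),
      (∀ φ ∈ Φ, φ ∈ P) ∧ D ∉ P ∧
      ∀ (Ω : Type) [Field Ω] [Algebra k Ω] (τ : Ω →ₐ[k] Ω) (a : Fin m → Ω),
        (∀ φ ∈ Φ, evd τ a φ = 0) → evd τ a D ≠ 0 → ∀ f ∈ P, evd τ a f = 0 := by
  classical
  -- stabilisation
  have hstab : ∀ v (hv : v < m), ∃ J : ℕ, (∀ j, ¬ (Dg P v j hv).Nonempty) ∨
      ((Dg P v J hv).Nonempty ∧ ∀ j, J ≤ j → sInf (Dg P v j hv) = sInf (Dg P v J hv)) := by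
    intro v hv
    by_cases h : ∀ j, ¬ (Dg P v j hv).Nonempty
    · exact ⟨0, Or.inl h⟩
    · push Not at h
      obtain ⟨j₀, hj₀⟩ := h
      have hmono : ∀ j j', j ≤ j' → Dg P v j hv ⊆ Dg P v j' hv := by
        intro j j' hjj'
        induction hjj' with
        | refl => exact subset_rfl
        | step _ ih => exact ih.trans (Dg_mono hP)
      have hne : ∀ j, j₀ ≤ j → (Dg P v j hv).Nonempty := fun j hj => hj₀.mono (hmono _ _ hj)
      have hex : ∃ n, ∃ j, j₀ ≤ j ∧ sInf (Dg P v j hv) = n := ⟨_, j₀, le_rfl, rfl⟩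
      obtain ⟨J, hJ, hJn⟩ := Nat.find_spec hex
      refine ⟨J, Or.inr ⟨hne J hJ, fun j hj => le_antisymm ?_ ?_⟩⟩
      · exact Nat.sInf_le (hmono J j hj (Nat.sInf_mem (hne J hJ)))
      · rw [hJn]
        exact Nat.find_min' hex ⟨j, hJ.trans hj, rfl⟩
  choose J hJ using hstab
  -- the data
  have hdat : ∀ v (hv : v < m) (j : ℕ), ∃ F : Polynomial (AA k m v j),
      (Dg P v j hv).Nonempty → Ann P v j hv F ∧ F.natDegree = sInf (Dg P v j hv) := by
    intro v hv j
    by_cases h : (Dg P v j hv).Nonempty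
    · obtain ⟨F, h1, h2⟩ := Nat.sInf_mem h
      exact ⟨F, fun _ => ⟨h1, h2⟩⟩
    · exact ⟨0, fun h' => absurd h' h⟩
  choose F hF using hdat
  let idx : Finset (Σ _ : Fin m, ℕ) :=
    Finset.univ.sigma fun v => Finset.range (J v.1 v.2 + 1)
  let gg : (Σ _ : Fin m, ℕ) → MvPolynomial (Vr m) k := fun w =>
    if (Dg P w.1.1 w.2 w.1.2).Nonempty then evA (X (w.1, w.2)) (F w.1.1 w.1.2 w.2) else 0
  let cc : (Σ _ : Fin m, ℕ) → MvPolynomial (Vr m) k := fun w =>
    if (Dg P w.1.1 w.2 w.1.2).Nonempty then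
      ((F w.1.1 w.1.2 w.2).leadingCoeff : MvPolynomial (Vr m) k) else 1
  refine ⟨idx.image gg, ∏ w ∈ idx, cc w, ?_, ?_, ?_⟩
  · intro φ hφ
    obtain ⟨w, _, rfl⟩ := Finset.mem_image.1 hφ
    simp only [gg]
    split_ifs with h
    · exact (hF _ _ _ h).1.1
    · exact P.zero_mem
  · intro h
    obtain ⟨w, _, hw⟩ := (hPp.prod_mem_iff (s := idx)).1 h
    simp only [cc] at hw
    split_ifs at hw with h'
    · exact (hF _ _ _ h').1.2 hw
    · exact hPp.ne_top ((Ideal.eq_top_iff_one _).2 hw)
  · intro Ω _ _ τ a hΦ hD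
    have hC0 : ∀ v (hv : v < m) j, j ≤ J v hv → Cnd P (evd τ a) v j hv := by
      intro v hv j hj hne
      have hmem : (⟨⟨v, hv⟩, j⟩ : Σ _ : Fin m, ℕ) ∈ idx := by
        simp only [idx, Finset.mem_sigma, Finset.mem_univ, true_and, Finset.mem_range]
        omega
      refine ⟨F v hv j, (hF v hv j hne).1, (hF v hv j hne).2, ?_, ?_⟩
      · have h1 := hΦ _ (Finset.mem_image_of_mem gg hmem)
        simp only [gg] at h1
        rwa [if_pos hne] at h1
      · have h1 : evd τ a (cc ⟨⟨v, hv⟩, j⟩) ≠ 0 := by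
          intro h2
          apply hD
          rw [map_prod]
          exact Finset.prod_eq_zero hmem h2
        simp only [cc] at h1
        rwa [if_pos hne] at h1
    refine good_all fun v hv j => ?_
    rcases hJ v hv with h | ⟨h1, h2⟩
    · exact fun h' => absurd h' (h j)
    · rcases le_total j (J v hv) with hj | hj
      · exact hC0 v hv j hj
      · induction hj with
        | refl => exact hC0 v hv _ le_rfl
        | @step j hj ih =>
          have hj' : J v hv ≤ j := hj
          have hne : (Dg P v j hv).Nonempty := by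
            have hmono : ∀ j', J v hv ≤ j' → (Dg P v j' hv).Nonempty := by
              intro j' hj'
              induction hj' with
              | refl => exact h1
              | step _ ih => exact ih.mono (Dg_mono hP)
            exact hmono j hj'
          exact Cnd.shift hP hne ((h2 (j + 1) (by omega)).trans (h2 j hj').symm) ih

end prime

end Pool.Agent.R664.DF
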