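import Mathlib
import Pool.Agent.R664.DF.Lim
import Pool.Agent.R664.DF.Rep2
import Pool.Agent.R664.DF.Ritt

/-!
# Preparations: stable subgroups, the shift, words
-/

set_option autoImplicit false

namespace Pool.Agent.R664.DF

open MvPolynomial Pool.Agent.H71R2.Frob

variable {p : ℕ} [Fact p.Prime] {G : Type} [Group G]

/-- The stable subgroup for `t`, containing a given subgroup. -/
theorem exists_stable_pair' {I : Type} [Finite I] (K : Subgroup G) [hK : K.Normal] (t : G)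
    (s : I → G) (hs : ∀ i, s i ∈ K) (C : Subgroup G) (hC : C ≤ K) (hCfg : C.FG) :
    ∃ B : Subgroup G, B ≤ K ∧ B.FG ∧ (∀ i, s i ∈ B) ∧ (∀ i, t * s i * t⁻¹ ∈ B) ∧ C ≤ B ∧
      Jid p s B = Jid p (fun i => t * s i * t⁻¹) B := by
  obtain ⟨B₀, hB₀K, hB₀fg, hsB₀, hstab⟩ := exists_stable p K s hs
  let c : Subgroup G → Subgroup G := fun H => H.map (MulAut.conj t).toMonoidHom
  let B := B₀ ⊔ c B₀ ⊔ C
  have hcK : c B₀ ≤ K := by
    rintro _ ⟨b, hb, rfl⟩
    exact hK.conj_mem _ (hB₀K hb) t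
  have hBK : B ≤ K := sup_le (sup_le hB₀K hcK) hC
  have hcfg : (c B₀).FG := fg_map _ hB₀fg
  have hBfg : B.FG := (hB₀fg.sup hcfg).sup hCfg
  have h1 : Jid p s B = Jid p s B₀ := hstab B hBK hBfg (le_sup_left.trans le_sup_left)
  -- the conjugate
  let B' := B.map (MulAut.conj t⁻¹).toMonoidHom
  have hB'K : B' ≤ K := by
    rintro _ ⟨b, hb, rfl⟩
    exact hK.conj_mem _ (hBK hb) t⁻¹
  have hB' : B'.map (MulAut.conj t).toMonoidHom = B := by
    rw [Subgroup.map_map]
    ext x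
    constructor
    · rintro ⟨b, hb, rfl⟩
      simpa [mul_assoc] using hb
    · intro hx
      exact ⟨x, hx, by simp [mul_assoc]⟩
  have hB₀B' : B₀ ≤ B' := by
    intro b hb
    refine ⟨t * b * t⁻¹, ?_, by simp [mul_assoc]⟩
    refine (le_sup_left : B₀ ⊔ c B₀ ≤ B) ((le_sup_right : c B₀ ≤ B₀ ⊔ c B₀) ?_)
    exact ⟨b, hb, by simp⟩
  have h2 : Jid p s B' = Jid p s B₀ := hstab B' hB'K (fg_map _ hBfg) hB₀B'
  have h3 : Jid p (fun i => t * s i * t⁻¹) B = Jid p s B' := by
    conv_lhs => rw [← hB']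
    exact Jid_conj p t
  refine ⟨B, hBK, hBfg, fun i => ?_, fun i => ?_, le_sup_right, ?_⟩
  · exact (le_sup_left.trans le_sup_left : B₀ ≤ B) (hsB₀ i)
  · refine (le_sup_left : B₀ ⊔ c B₀ ≤ B) ((le_sup_right : c B₀ ≤ B₀ ⊔ c B₀) ?_)
    exact ⟨s i, hsB₀ i, by simp⟩
  · rw [h1, h3, h2]

/-- conjugates by powers of `t` -/
def cj {I : Type} (t : G) (s : I → G) (v : I × ℕ) : G := t ^ v.2 * s v.1 * (t ^ v.2)⁻¹

theorem cj_mem {I : Type} (K : Subgroup G) [hK : K.Normal] (t : G) (s : I → G)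
    (hs : ∀ i, s i ∈ K) (v : I × ℕ) : cj t s v ∈ K := hK.conj_mem _ (hs _) _

theorem cj_succ {I : Type} (t : G) (s : I → G) (i : I) (n : ℕ) :
    cj t s (i, n + 1) = t * cj t s (i, n) * t⁻¹ := by
  simp only [cj]
  rw [pow_succ']
  group

/-- the shift does not change the ideal -/
theorem shift_mem_Jid {I : Type} (K : Subgroup G) [hK : K.Normal] (t : G) (s : I → G)
    (hs : ∀ i, s i ∈ K) (f : MvPolynomial ((I × ℕ) × Fin 2 × Fin 2) (ZMod p)) :
    rename (Prod.map (fun v : I × ℕ => (v.1, v.2 + 1)) id) f ∈ Jid p (cj t s) K ↔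
      f ∈ Jid p (cj t s) K := by
  rw [rename_mem_Jid _ _ K (cj_mem K t s hs)]
  have h1 : cj t s ∘ (fun v : I × ℕ => (v.1, v.2 + 1)) = fun v => t * cj t s v * t⁻¹ :=
    funext fun v => cj_succ t s v.1 v.2
  have h2 : K.map (MulAut.conj t).toMonoidHom = K := by
    ext x
    constructor
    · rintro ⟨b, hb, rfl⟩
      exact hK.conj_mem _ hb t
    · intro hx
      exact ⟨t⁻¹ * x * t, by simpa using hK.conj_mem _ hx t⁻¹, by simp [mul_assoc]⟩
  have h3 : Jid p (fun v => t * cj t s v * t⁻¹) K = Jid p (cj t s) K := by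
    conv_lhs => rw [← h2]
    exact Jid_conj p t
  rw [h1, h3]

/-- word maps are given by polynomials -/
theorem word_poly' (p : ℕ) [Fact p.Prime] {J : Type} (g : FreeGroup J) :
    ∃ (δ : MvPolynomial (J × Fin 2 × Fin 2) (ZMod p))
      (W : Fin 2 → Fin 2 → MvPolynomial (J × Fin 2 × Fin 2) (ZMod p)),
      ∀ (Ω : Type) [Field Ω] [Algebra (ZMod p) Ω]
        (A : J → Matrix.GeneralLinearGroup (Fin 2) Ω),
        aeval (fun v : J × Fin 2 × Fin 2 => (A v.1).1 v.2.1 v.2.2) δ ≠ 0 ∧ ∀ i j,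
        (FreeGroup.lift A g : Matrix.GeneralLinearGroup (Fin 2) Ω).1 i j *
            aeval (fun v : J × Fin 2 × Fin 2 => (A v.1).1 v.2.1 v.2.2) δ =
          aeval (fun v : J × Fin 2 × Fin 2 => (A v.1).1 v.2.1 v.2.2) (W i j) := by
  classical
  induction g using FreeGroup.induction_on with
  | C1 =>
    refine ⟨1, fun i j => if i = j then 1 else 0, ?_⟩
    intro Ω _ _ A
    refine ⟨by simp, fun i j => ?_⟩
    rw [map_one, map_one, mul_one]
    by_cases h : i = j
    · subst h; simp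
    · simp [h, Matrix.one_apply_ne h]
  | of s =>
    refine ⟨1, fun i j => X (s, i, j), ?_⟩
    intro Ω _ _ A
    refine ⟨by simp, fun i j => ?_⟩
    rw [map_one, mul_one, aeval_X]
    simp
  | inv_of s _ =>
    refine ⟨Matrix.det (Matrix.of fun i j => X (s, i, j) :
          Matrix (Fin 2) (Fin 2) (MvPolynomial (J × Fin 2 × Fin 2) (ZMod p))),
      fun i j => (Matrix.adjugate (Matrix.of fun i j => X (s, i, j) :
      Matrix (Fin 2) (Fin 2) (MvPolynomial (J × Fin 2 × Fin 2) (ZMod p)))) i j, ?_⟩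
    intro Ω _ _ A
    have hdet : ∀ s', aeval (fun v : J × Fin 2 × Fin 2 => (A v.1).1 v.2.1 v.2.2)
        (Matrix.det (Matrix.of fun i j => X (s', i, j) :
          Matrix (Fin 2) (Fin 2) (MvPolynomial (J × Fin 2 × Fin 2) (ZMod p)))) =
        (A s').1.det := by
      intro s'
      simp [Matrix.det_fin_two]
    have hu : IsUnit (A s).1.det := (Matrix.isUnit_iff_isUnit_det _).1 (A s).isUnit
    have hne : (A s).1.det ≠ 0 := hu.ne_zero
    refine ⟨by rw [hdet]; exact hne, fun i j => ?_⟩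
    have hadj : aeval (fun v : J × Fin 2 × Fin 2 => (A v.1).1 v.2.1 v.2.2)
        ((Matrix.adjugate (Matrix.of fun i j => X (s, i, j) :
          Matrix (Fin 2) (Fin 2) (MvPolynomial (J × Fin 2 × Fin 2) (ZMod p)))) i j) =
        (A s).1.adjugate i j := by
      rw [Matrix.adjugate_fin_two, Matrix.adjugate_fin_two]
      fin_cases i <;> fin_cases j <;> simp
    rw [hadj, hdet]
    rw [map_inv, FreeGroup.lift_apply_of]
    have h1 : ((A s)⁻¹ : Matrix.GeneralLinearGroup (Fin 2) Ω).1 = (A s).1⁻¹ :=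
      Matrix.coe_units_inv (A s)
    rw [h1, Matrix.inv_def, Matrix.smul_apply, Ring.inverse_eq_inv', smul_eq_mul]
    field_simp
  | mul x y hx hy =>
    obtain ⟨δ₁, W₁, h₁⟩ := hx
    obtain ⟨δ₂, W₂, h₂⟩ := hy
    refine ⟨δ₁ * δ₂, fun i j => ∑ k, W₁ i k * W₂ k j, ?_⟩
    intro Ω _ _ A
    obtain ⟨n₁, h₁⟩ := h₁ Ω A
    obtain ⟨n₂, h₂⟩ := h₂ Ω A
    refine ⟨by rw [map_mul]; exact mul_ne_zero n₁ n₂, fun i j => ?_⟩
    rw [map_sum]
    have h3 : (FreeGroup.lift A (x * y) : Matrix.GeneralLinearGroup (Fin 2) Ω).1 i j =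
        ∑ k, (FreeGroup.lift A x : Matrix.GeneralLinearGroup (Fin 2) Ω).1 i k *
          (FreeGroup.lift A y : Matrix.GeneralLinearGroup (Fin 2) Ω).1 k j := by
      rw [map_mul]
      show (((FreeGroup.lift A x : Matrix.GeneralLinearGroup (Fin 2) Ω).1 *
        (FreeGroup.lift A y : Matrix.GeneralLinearGroup (Fin 2) Ω).1) i j) = _
      rw [Matrix.mul_apply]
    rw [h3, Finset.sum_mul]
    apply Finset.sum_congr rfl
    intro k _
    rw [map_mul, map_mul, ← h₁ i k, ← h₂ k j]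
    ring

/-- relations of `K` hold at each zero of the ideal of relations -/
theorem lift_eq_one_of_zero {J : Type} (K : Subgroup G) (s : J → G) (u : FreeGroup J)
    (hu : FreeGroup.lift s u = 1)
    {Ω : Type} [Field Ω] [Algebra (ZMod p) Ω] (A : J → Matrix.GeneralLinearGroup (Fin 2) Ω)
    (hA : ∀ f ∈ Jid p s K, aeval (fun v : J × Fin 2 × Fin 2 => (A v.1).1 v.2.1 v.2.2) f = 0) :
    FreeGroup.lift A u = 1 := by
  classical
  obtain ⟨δ, W, hW⟩ := word_poly' p u
  have h1 : ∀ i j, W i j - (if i = j then δ else 0) ∈ Jid p s K := by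
    intro i j
    rw [mem_Jid]
    intro Ω' _ _ ρ b hb
    obtain ⟨_, h2⟩ := hW Ω' (fun v => ρ (b v))
    have h3 : FreeGroup.lift (fun v => ρ (b v)) u = 1 := by
      have h4 : (FreeGroup.lift fun v => ρ (b v)) = ρ.comp (FreeGroup.lift b) := by
        ext1 v
        simp
      have h5 : FreeGroup.lift b u = 1 := by
        apply Subtype.ext
        have h6 : K.subtype.comp (FreeGroup.lift b) = FreeGroup.lift s := by
          ext1 v
          simp [hb]
        have h7 := DFunLike.congr_fun h6 u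
        rw [hu] at h7
        exact h7
      rw [h4, MonoidHom.comp_apply, h5, map_one]
    have h8 := h2 i j
    rw [h3] at h8
    rw [map_sub, ← h8]
    by_cases hij : i = j
    · subst hij
      simp
    · simp [hij]
  obtain ⟨h2, h3⟩ := hW Ω A
  apply Units.ext
  ext i j
  have h4 := hA _ (h1 i j)
  rw [map_sub, ← h3 i j] at h4
  by_cases hij : i = j
  · subst hij
    rw [if_pos rfl] at h4
    have h5 : ((FreeGroup.lift A u).1 i i - 1) *
        aeval (fun v : J × Fin 2 × Fin 2 => (A v.1).1 v.2.1 v.2.2) δ = 0 := by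
      rw [← h4]; ring
    have h6 := (mul_eq_zero.1 h5).resolve_right h2
    rw [sub_eq_zero] at h6
    rw [h6]
    exact (Matrix.one_apply_eq i).symm
  · rw [if_neg hij, map_zero, sub_zero] at h4
    have h6 := (mul_eq_zero.1 h4).resolve_right h2
    rw [h6]
    exact (Matrix.one_apply_ne hij).symm

end Pool.Agent.R664.DF
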