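import Mathlib
import Pool.Agent.R664.DF.Prep

/-!
# Frobenius representations of the whole group `K`
-/

set_option autoImplicit false

namespace Pool.Agent.R664.DF

open MvPolynomial Pool.Agent.H71R2.Frob

variable {p : ℕ} [Fact p.Prime] {G : Type} [Group G]

theorem exists_fg_of_finset {K : Subgroup G}
    (hfree : ∀ H : Subgroup G, H ≤ K → H.FG → IsFreeGroup H) {I : Type} [Finite I] (s : I → G)
    (hs : ∀ i, s i ∈ K) (Φ : Finset (MvPolynomial (I × Fin 2 × Fin 2) (ZMod p)))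
    (hΦ : ∀ φ ∈ Φ, φ ∈ Jid p s K) :
    ∃ B : FS K, (∀ i, s i ∈ B.1) ∧ ∀ φ ∈ Φ, φ ∈ Jid p s B.1 := by
  classical
  induction Φ using Finset.induction_on with
  | empty =>
    refine ⟨⟨Subgroup.closure (Set.range s), by
      rw [Subgroup.closure_le]
      rintro _ ⟨i, rfl⟩
      exact hs i, (Subgroup.fg_iff _).2 ⟨Set.range s, rfl, Set.finite_range s⟩⟩, fun i =>
        Subgroup.subset_closure ⟨i, rfl⟩, by simp⟩
  | insert φ Φ _ ih =>
    obtain ⟨B, hB1, hB2⟩ := ih fun ψ hψ => hΦ ψ (Finset.mem_insert_of_mem hψ)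
    obtain ⟨C, hC1, hC2⟩ := exists_fg_of_mem_Jid hfree s hs φ (hΦ φ (Finset.mem_insert_self _ _))
    refine ⟨fsup K B C, fun i => (le_sup_left : B.1 ≤ B.1 ⊔ C.1) (hB1 i), ?_⟩
    intro ψ hψ
    rcases Finset.mem_insert.1 hψ with rfl | hψ
    · exact Jid_mono p (le_sup_right : C.1 ≤ B.1 ⊔ C.1) hC1 hC2
    · exact Jid_mono p (le_sup_left : B.1 ≤ B.1 ⊔ C.1) hB1 (hB2 ψ hψ)

/-- a nontrivial element is not killed by all representations -/
theorem exists_entry {K : Subgroup G}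
    (hfree : ∀ H : Subgroup G, H ≤ K → H.FG → IsFreeGroup H) {J : Type} (s : J → G)
    (hs : ∀ i, s i ∈ K) (i₀ : J) (hg : s i₀ ≠ 1) :
    ∃ k l : Fin 2, (X (i₀, k, l) - (if k = l then 1 else 0) :
      MvPolynomial (J × Fin 2 × Fin 2) (ZMod p)) ∉ Jid p s K := by
  classical
  by_contra hcon
  push Not at hcon
  let j : Unit → J := fun _ => i₀
  let D : Fin 2 → Fin 2 → MvPolynomial (Unit × Fin 2 × Fin 2) (ZMod p) := fun k l =>
    X ((), k, l) - (if k = l then 1 else 0)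
  have h1 : ∀ k l, D k l ∈ Jid p (s ∘ j) K := by
    intro k l
    rw [← rename_mem_Jid s j K hs]
    have h2 : rename (Prod.map j id) (D k l) = (X (i₀, k, l) - (if k = l then 1 else 0) :
      MvPolynomial (J × Fin 2 × Fin 2) (ZMod p)) := by
      simp only [D, map_sub, rename_X]
      congr 1
      split_ifs <;> simp
    rw [h2]
    exact hcon k l
  obtain ⟨B, hB1, hB2⟩ := exists_fg_of_finset hfree (s ∘ j) (fun _ => hs _)
    ((Finset.univ : Finset (Fin 2 × Fin 2)).image fun v => D v.1 v.2) (by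
      intro φ hφ
      obtain ⟨v, _, rfl⟩ := Finset.mem_image.1 hφ
      exact h1 _ _)
  obtain ⟨r, ⟨e⟩⟩ := exists_iso K hfree B
  have hgB : s i₀ ∈ B.1 := hB1 ()
  have h3 : FreeGroup.lift (Agen p r) (e.symm ⟨s i₀, hgB⟩) = 1 := by
    apply Units.ext
    ext k l
    have h4 := hB2 (D k l) (Finset.mem_image.2 ⟨(k, l), Finset.mem_univ _, rfl⟩)
    rw [mem_Jid] at h4
    have h5 := h4 (EE p r) ((FreeGroup.lift (Agen p r)).comp e.symm.toMonoidHom)
      (fun _ => ⟨s i₀, hgB⟩) (fun _ => rfl)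
    simp only [D, map_sub, aeval_X] at h5
    rw [sub_eq_zero] at h5
    refine h5.trans ?_
    by_cases hkl : k = l
    · subst hkl; simp
    · simp [hkl]
  have h6 := gen_injective _ h3
  apply hg
  have h7 : (⟨s i₀, hgB⟩ : B.1) = 1 := by
    rw [← e.apply_symm_apply ⟨s i₀, hgB⟩, h6, map_one]
  exact congrArg Subtype.val h7

omit [Fact p.Prime] in
/-- entries of iterated Frobenius images -/
theorem map_iterate_entry {κ : Type} [Field κ] [CharP κ p] [ExpChar κ p] (j n : ℕ)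
    (M : Matrix.GeneralLinearGroup (Fin 2) κ) (k l : Fin 2) :
    ((Matrix.GeneralLinearGroup.map (n := Fin 2) (iterateFrobenius κ p j))^[n] M).1 k l =
      (iterateFrobenius κ p j)^[n] (M.1 k l) := by
  induction n with
  | zero => rfl
  | succ n ih =>
    rw [Function.iterate_succ_apply', Function.iterate_succ_apply', ← ih]
    simp

/-- **Frobenius representations of `K`** -/
theorem exists_point (K : Subgroup G) [hK : K.Normal]
    (hfree : ∀ H : Subgroup G, H ≤ K → H.FG → IsFreeGroup H) (t : G) {ι : Type} [Finite ι]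
    (s : ι → G) (hs : ∀ i, s i ∈ K) (i₀ : ι) (hg : s i₀ ≠ 1) :
    ∃ (κ : Type) (_ : Field κ) (_ : Finite κ)
      (F : Matrix.GeneralLinearGroup (Fin 2) κ →* Matrix.GeneralLinearGroup (Fin 2) κ)
      (M : ι → Matrix.GeneralLinearGroup (Fin 2) κ), Function.Injective F ∧ M i₀ ≠ 1 ∧
      ∀ u : FreeGroup (ι × ℕ), FreeGroup.lift (cj t s) u = 1 →
        FreeGroup.lift (fun v : ι × ℕ => F^[v.2] (M v.1)) u = 1 := by
  classical
  have hp2 : Fact (Nat.Prime 2) := ⟨Nat.prime_two⟩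
  have hsc : ∀ v, cj t s v ∈ K := cj_mem K t s hs
  -- numbering of the variables
  obtain ⟨m, ⟨eq⟩⟩ := Finite.exists_equiv_fin (ι × Fin 2 × Fin 2)
  let eV : Vr m → (ι × ℕ) × Fin 2 × Fin 2 := fun v =>
    (((eq.symm v.1).1, v.2), (eq.symm v.1).2)
  let eW : (ι × ℕ) × Fin 2 × Fin 2 → Vr m := fun w => (eq (w.1.1, w.2), w.1.2)
  have hVW : ∀ w, eV (eW w) = w := by
    rintro ⟨⟨i, n⟩, k⟩
    simp [eV, eW]
  have hP1 := isPrime_Jid (p := 2) hfree (cj t s) hsc
  let P' : Ideal (MvPolynomial (Vr m) (ZMod 2)) := (Jid 2 (cj t s) K).comap (rename eV)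
  have hP'1 : P'.IsPrime := Ideal.IsPrime.comap _
  have hP'2 : ∀ f, sh (ZMod 2) m f ∈ P' ↔ f ∈ P' := by
    intro f
    change rename eV (sh (ZMod 2) m f) ∈ Jid 2 (cj t s) K ↔ rename eV f ∈ Jid 2 (cj t s) K
    have h : rename eV (sh (ZMod 2) m f) =
        rename (Prod.map (fun v : ι × ℕ => (v.1, v.2 + 1)) id) (rename eV f) := by
      rw [sh, rename_rename, rename_rename]
      rfl
    rw [h, shift_mem_Jid K t s hs]
  obtain ⟨Φ, D, hΦP, hDP, hbasis⟩ := exists_basis hP'2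
  obtain ⟨k₀, l₀, hDg⟩ := exists_entry (p := 2) hfree (cj t s) hsc (i₀, 0)
    (by simpa [cj] using hg)
  obtain ⟨Dg, hDgd⟩ : ∃ Dg, Dg = (X ((i₀, 0), k₀, l₀) - (if k₀ = l₀ then 1 else 0) :
      MvPolynomial ((ι × ℕ) × Fin 2 × Fin 2) (ZMod 2)) := ⟨_, rfl⟩
  rw [← hDgd] at hDg
  obtain ⟨D', hD'⟩ : ∃ D', D' = rename eV D * Dg := ⟨_, rfl⟩
  have hD'P : D' ∉ Jid 2 (cj t s) K := by
    rw [hD']
    intro h
    rcases hP1.mem_or_mem h with h | h
    · exact hDP h
    · exact hDg h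
  -- a bound for the indices
  let S : Finset (MvPolynomial ((ι × ℕ) × Fin 2 × Fin 2) (ZMod 2)) :=
    insert D' (Φ.image (rename eV))
  let E : ℕ := S.sup fun f => f.vars.sup fun v => v.1.2
  have hE : ∀ f ∈ S, ∀ v ∈ f.vars, v.1.2 ≤ E := fun f hf v hv =>
    (Finset.le_sup (f := fun v : (ι × ℕ) × Fin 2 × Fin 2 => v.1.2) hv).trans
      (Finset.le_sup (f := fun f : MvPolynomial ((ι × ℕ) × Fin 2 × Fin 2) (ZMod 2) =>
        f.vars.sup fun v => v.1.2) hf)
  let T : Type := ι × Fin (E + 1)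
  let j : T → ι × ℕ := fun v => (v.1, v.2.val)
  have hran : ∀ f ∈ S, ∃ f' : MvPolynomial (T × Fin 2 × Fin 2) (ZMod 2),
      rename (Prod.map j id) f' = f := by
    intro f hf
    refine exists_rename_eq_of_vars_subset_range f _ ?_ ?_
    · rintro ⟨⟨a, b⟩, c⟩ ⟨⟨a', b'⟩, c'⟩ hab
      simp only [Prod.map_apply, Prod.mk.injEq, id, j] at hab
      obtain ⟨⟨h1, h2⟩, h3⟩ := hab
      rw [h1, Fin.ext h2, h3]
    · rintro ⟨⟨i, n⟩, c⟩ hv
      have h1 : n ≤ E := hE f hf _ hv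
      exact ⟨((i, ⟨n, by omega⟩), c), rfl⟩
  choose! red hred using hran
  let sT : T → G := cj t s ∘ j
  have hsT : ∀ i, sT i ∈ K := fun i => hsc _
  have hredJ : ∀ f ∈ S, (f ∈ Jid 2 (cj t s) K ↔ red f ∈ Jid 2 sT K) := by
    intro f hf
    rw [← rename_mem_Jid (cj t s) j K hsc, hred f hf]
  obtain ⟨C, hC1, hC2⟩ := exists_fg_of_finset (p := 2) hfree sT hsT
    ((Φ.image (rename eV)).image red) (by
      intro φ hφ
      obtain ⟨ψ, hψ, rfl⟩ := Finset.mem_image.1 hφ
      have hψS : ψ ∈ S := Finset.mem_insert_of_mem hψ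
      rw [← hredJ ψ hψS]
      obtain ⟨χ, hχ, rfl⟩ := Finset.mem_image.1 hψ
      exact hΦP χ hχ)
  obtain ⟨B, hBK, hBfg, hsB, hs'B, hCB, hJ⟩ := exists_stable_pair' (p := 2) K t sT hsT C.1
    C.2.1 C.2.2
  have hBfree : IsFreeGroup B := hfree B hBK hBfg
  have hBfg' : Group.FG B := (Group.fg_iff_subgroup_fg B).2 hBfg
  obtain ⟨r, ⟨e⟩⟩ := exists_equiv_freeGroup B
  let b : T → B := fun a => ⟨sT a, hsB a⟩
  let b' : T → B := fun a => ⟨t * sT a * t⁻¹, hs'B a⟩
  have hD'S : D' ∈ S := Finset.mem_insert_self _ _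
  have hDB : red D' ∉ Jid 2 sT B := fun h =>
    hD'P ((hredJ D' hD'S).2 (Jid_mono 2 hBK hsB h))
  obtain ⟨jj, κ, _, hfin, hAlg, hch, ρ, hρ, hρD⟩ := exists_frobenius_rep (p := 2) e b b' (by
      intro Q
      constructor
      · intro hQ
        have h1 := mem_Jid_of_gen e sT b (fun a => rfl) Q hQ
        rw [hJ, mem_Jid] at h1
        exact h1 (EE 2 r) ((FreeGroup.lift (Agen 2 r)).comp e.symm.toMonoidHom) b' (fun a => rfl)
      · intro hQ
        have h1 := mem_Jid_of_gen e (fun a => t * sT a * t⁻¹) b' (fun a => rfl) Q hQ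
        rw [← hJ, mem_Jid] at h1
        exact h1 (EE 2 r) ((FreeGroup.lift (Agen 2 r)).comp e.symm.toMonoidHom) b (fun a => rfl))
    (red D') (fun h => hDB (mem_Jid_of_gen e sT b (fun a => rfl) _ h))
  -- the matrices
  let F : Matrix.GeneralLinearGroup (Fin 2) κ →* Matrix.GeneralLinearGroup (Fin 2) κ :=
    Matrix.GeneralLinearGroup.map (iterateFrobenius κ 2 jj)
  let M : ι → Matrix.GeneralLinearGroup (Fin 2) κ := fun i => ρ (b (i, 0))
  let A : ι × ℕ → Matrix.GeneralLinearGroup (Fin 2) κ := fun v => F^[v.2] (M v.1)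
  have hAρ : ∀ (i : ι) (n : ℕ) (hn : n < E + 1), A (i, n) = ρ (b (i, ⟨n, hn⟩)) := by
    intro i n
    induction n with
    | zero => intro _; rfl
    | succ n ih =>
      intro hn
      have h1 : b (i, ⟨n + 1, hn⟩) = b' (i, ⟨n, by omega⟩) := by
        apply Subtype.ext
        exact cj_succ t s i n
      rw [h1, hρ, ← ih (by omega)]
      exact Function.iterate_succ_apply' _ _ _
  let ent : (ι × ℕ) × Fin 2 × Fin 2 → κ := fun v => (A v.1).1 v.2.1 v.2.2
  have hentS : ∀ f ∈ S, aeval ent f =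
      aeval (fun v : T × Fin 2 × Fin 2 => (ρ (b v.1)).1 v.2.1 v.2.2) (red f) := by
    intro f hf
    conv_lhs => rw [← hred f hf]
    rw [aeval_rename]
    congr 2
    funext v
    obtain ⟨⟨i, n, hn⟩, k, l⟩ := v
    change (A (i, n)).1 k l = _
    rw [hAρ i n hn]
  -- the difference point
  let τ : κ →ₐ[ZMod 2] κ := { iterateFrobenius κ 2 jj with
    commutes' := fun c => by
      have h1 : (iterateFrobenius κ 2 jj).comp (algebraMap (ZMod 2) κ) = algebraMap (ZMod 2) κ :=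
        Subsingleton.elim _ _
      exact DFunLike.congr_fun h1 c }
  have hτ : ∀ x, τ x = iterateFrobenius κ 2 jj x := fun _ => rfl
  let a : Fin m → κ := fun v =>
    (M (eq.symm v).1).1 (eq.symm v).2.1 (eq.symm v).2.2
  have hevd : ∀ f, evd τ a f = aeval ent (rename eV f) := by
    intro f
    rw [evd, aeval_rename]
    congr 2
    funext v
    change τ^[v.2] (a v.1) = (F^[v.2] (M (eq.symm v.1).1)).1 (eq.symm v.1).2.1 (eq.symm v.1).2.2
    rw [map_iterate_entry]
    rfl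
  have hzero : ∀ f ∈ Jid 2 (cj t s) K, aeval ent f = 0 := by
    intro f hf
    have h1 : rename eV (rename eW f) = f := by
      rw [rename_rename]
      have : eV ∘ eW = id := funext hVW
      rw [this, rename_id]
      rfl
    have h2 := hbasis κ τ a ?_ ?_ (rename eW f) (by
      change rename eV (rename eW f) ∈ Jid 2 (cj t s) K
      rw [h1]; exact hf)
    · rw [hevd, h1] at h2
      exact h2
    · intro φ hφ
      have hφS : rename eV φ ∈ S := Finset.mem_insert_of_mem (Finset.mem_image_of_mem _ hφ)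
      rw [hevd, hentS _ hφS]
      have h3 := Jid_mono 2 hCB hC1 (hC2 _ (Finset.mem_image_of_mem red
        (Finset.mem_image_of_mem (rename eV) hφ)))
      rw [mem_Jid] at h3
      exact h3 κ ρ b (fun _ => rfl)
    · rw [hevd]
      intro h3
      apply hρD
      rw [← hentS _ hD'S, hD', map_mul, h3, zero_mul]
  refine ⟨κ, inferInstance, hfin, F, M, ?_, ?_, ?_⟩
  · intro x y h
    apply Units.ext
    ext k l
    have h1 := congrArg (fun N : Matrix.GeneralLinearGroup (Fin 2) κ => N.1 k l) h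
    simp only [F] at h1
    exact (iterateFrobenius κ 2 jj).injective (by simpa using h1)
  · intro h
    apply hρD
    rw [← hentS _ hD'S, hD', map_mul, hDgd]
    have h1 : aeval ent (X ((i₀, 0), k₀, l₀) - (if k₀ = l₀ then 1 else 0) :
        MvPolynomial ((ι × ℕ) × Fin 2 × Fin 2) (ZMod 2)) = 0 := by
      rw [map_sub, aeval_X]
      change (M i₀).1 k₀ l₀ - _ = 0
      rw [h]
      by_cases hkl : k₀ = l₀
      · subst hkl; simp
      · simp [hkl]
    rw [h1, mul_zero]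
  · intro u hu
    exact lift_eq_one_of_zero (p := 2) K (cj t s) u hu A hzero

end Pool.Agent.R664.DF
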