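import Mathlib
import Pool.Agent.R664.DF.Point

/-!
# Finitely generated (locally free)-by-`ℤ` groups are residually finite
-/

set_option autoImplicit false

namespace Pool.Agent.R664.DF

open Pool.Agent.H71R2.Frob

section words

variable {ι : Type}

/-- conjugates of generators by powers of the last one -/
def th (ι : Type) : FreeGroup (ι × ℕ) →* FreeGroup (ι ⊕ Unit) :=
  FreeGroup.lift (cj (FreeGroup.of (Sum.inr ())) fun i => FreeGroup.of (Sum.inl i))

theorem exists_th (w : FreeGroup (ι ⊕ Unit)) :
    ∃ C : ℕ, ∀ n ≥ C, ∃ (u : FreeGroup (ι × ℕ)) (m : ℕ), n ≤ m + C ∧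
      FreeGroup.of (Sum.inr ()) ^ n * w = th ι u * FreeGroup.of (Sum.inr ()) ^ m := by
  induction w using FreeGroup.induction_on with
  | C1 => exact ⟨0, fun n _ => ⟨1, n, by omega, by simp⟩⟩
  | of x =>
    rcases x with i | ⟨⟩
    · refine ⟨0, fun n _ => ⟨FreeGroup.of (i, n), n, by omega, ?_⟩⟩
      simp [th, cj]
    · refine ⟨0, fun n _ => ⟨1, n + 1, by omega, ?_⟩⟩
      simp [pow_succ]
  | inv_of x _ =>
    rcases x with i | ⟨⟩
    · refine ⟨0, fun n _ => ⟨(FreeGroup.of (i, n))⁻¹, n, by omega, ?_⟩⟩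
      simp only [th, cj, map_inv, FreeGroup.lift_apply_of]
      group
    · refine ⟨1, fun n hn => ⟨1, n - 1, by omega, ?_⟩⟩
      obtain ⟨k, rfl⟩ : ∃ k, n = k + 1 := ⟨n - 1, by omega⟩
      simp [pow_succ]
  | mul x y hx hy =>
    obtain ⟨C, hC⟩ := hx
    obtain ⟨C', hC'⟩ := hy
    refine ⟨C + C', fun n hn => ?_⟩
    obtain ⟨u, m, h1, h2⟩ := hC n (by omega)
    obtain ⟨u', m', h3, h4⟩ := hC' m (by omega)
    refine ⟨u * u', m', by omega, ?_⟩
    rw [← mul_assoc, h2, mul_assoc, h4, map_mul, mul_assoc]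

end words

variable {G : Type} [Group G]

/-- **Theorem.** A finitely generated group with a homomorphism onto `ℤ` whose kernel is locally
free is residually finite. -/
theorem rf_of_locallyFree_by_Z [hG : Group.FG G] (χ : G →* Multiplicative ℤ)
    (hχ : Function.Surjective χ)
    (hfree : ∀ H : Subgroup G, H ≤ χ.ker → H.FG → IsFreeGroup H) (g : G) (hg : g ≠ 1) :
    ∃ N : Subgroup G, N.Normal ∧ N.index ≠ 0 ∧ g ∉ N := by
  classical
  have hp2 : Fact (Nat.Prime 2) := ⟨Nat.prime_two⟩
  obtain ⟨t, ht⟩ := hχ (Multiplicative.ofAdd 1)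
  by_cases hgK : χ g = 1
  swap
  · -- the exponent is nonzero
    let m : ℤ := Multiplicative.toAdd (χ g)
    have hm : m ≠ 0 := by
      intro h
      exact hgK (Multiplicative.toAdd.injective h)
    let N : ℕ := m.natAbs + 1
    have : NeZero N := ⟨Nat.succ_ne_zero _⟩
    let q : ℤ →+ ZMod N := (Int.castRingHom (ZMod N)).toAddMonoidHom
    let f : G →* Multiplicative (ZMod N) := (AddMonoidHom.toMultiplicative q).comp χ
    refine ⟨f.ker, inferInstance, (Subgroup.finiteIndex_ker f).index_ne_zero, ?_⟩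
    intro h
    have h1 : (m : ZMod N) = 0 := by
      have h0 : (Int.castRingHom (ZMod N)) m = 0 := congrArg Multiplicative.toAdd h
      rwa [eq_intCast] at h0
    rw [ZMod.intCast_zmod_eq_zero_iff_dvd] at h1
    have h2 := Int.natAbs_dvd_natAbs.2 h1
    simp only [Int.natAbs_natCast] at h2
    have h3 := Nat.le_of_dvd (Int.natAbs_pos.2 hm) h2
    omega
  -- generators
  obtain ⟨S, hS⟩ := hG.out
  let ι : Type := Option S
  let s : ι → G := fun o => o.elim g fun x => kp χ t x.1
  have hs : ∀ i, s i ∈ χ.ker := by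
    intro i
    rcases i with _ | x
    · exact hgK
    · exact kp_mem ht x.1
  obtain ⟨κ, _, hfin, F, M, hF, hM, hrel⟩ := exists_point χ.ker hfree t s hs none hg
  have hfinΓ : Finite (Matrix.GeneralLinearGroup (Fin 2) κ) := inferInstance
  have hF' : Function.Bijective F := Finite.injective_iff_bijective.1 hF
  let F' : MulAut (Matrix.GeneralLinearGroup (Fin 2) κ) := MulEquiv.ofBijective F hF'
  let Γ := SemidirectProduct (Matrix.GeneralLinearGroup (Fin 2) κ)
    (MulAut (Matrix.GeneralLinearGroup (Fin 2) κ)) (MonoidHom.id _)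
  have hfinAut : Finite (MulAut (Matrix.GeneralLinearGroup (Fin 2) κ)) :=
    Finite.of_injective (fun f : MulAut (Matrix.GeneralLinearGroup (Fin 2) κ) =>
      (f : Matrix.GeneralLinearGroup (Fin 2) κ → Matrix.GeneralLinearGroup (Fin 2) κ))
      DFunLike.coe_injective
  have hfin' : Finite Γ := Finite.of_equiv _ SemidirectProduct.equivProd.symm
  let π : FreeGroup (ι ⊕ Unit) →* G := FreeGroup.lift (Sum.elim s fun _ => t)
  let f : FreeGroup (ι ⊕ Unit) →* Γ := FreeGroup.lift
    (Sum.elim (fun i => SemidirectProduct.inl (M i)) fun _ => SemidirectProduct.inr F')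
  have hπs : ∀ i, π (FreeGroup.of (Sum.inl i)) = s i := fun i => by simp [π]
  have hπt : π (FreeGroup.of (Sum.inr ())) = t := by simp [π]
  have hfs : ∀ i, f (FreeGroup.of (Sum.inl i)) = SemidirectProduct.inl (M i) :=
    fun i => by simp [f]
  have hft : f (FreeGroup.of (Sum.inr ())) = SemidirectProduct.inr F' := by simp [f]
  have hπ : Function.Surjective π := by
    rw [← MonoidHom.range_eq_top, eq_top_iff, ← hS, Subgroup.closure_le]
    intro x hx
    have h1 : s (some ⟨x, hx⟩) = x * t ^ (-(ex χ x)) := rfl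
    have h2 : x = s (some ⟨x, hx⟩) * t ^ (ex χ x) := by
      rw [h1, mul_assoc, ← zpow_add, neg_add_cancel, zpow_zero, mul_one]
    rw [h2]
    refine π.range.mul_mem ⟨_, hπs _⟩ (π.range.zpow_mem ⟨_, hπt⟩ _)
  -- the compositions with `th`
  have hπth : π.comp (th ι) = FreeGroup.lift (cj t s) := by
    ext1 v
    simp only [MonoidHom.comp_apply, th, FreeGroup.lift_apply_of, cj, map_mul, map_pow, map_inv,
      hπs, hπt]
  have hconj : ∀ (n : ℕ) (x : Matrix.GeneralLinearGroup (Fin 2) κ),
      (SemidirectProduct.inr F' : Γ) ^ n * SemidirectProduct.inl x *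
        ((SemidirectProduct.inr F' : Γ) ^ n)⁻¹ = SemidirectProduct.inl (F^[n] x) := by
    intro n
    induction n with
    | zero => intro x; simp
    | succ n ih =>
      intro x
      have h1 : (SemidirectProduct.inl (F x) : Γ) =
          SemidirectProduct.inr F' * SemidirectProduct.inl x * (SemidirectProduct.inr F')⁻¹ := by
        rw [← map_inv]
        exact SemidirectProduct.inl_aut (φ := MonoidHom.id
          (MulAut (Matrix.GeneralLinearGroup (Fin 2) κ))) F' x
      rw [Function.iterate_succ_apply, ← ih (F x), h1, pow_succ]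
      group
  have hfth : f.comp (th ι) = (SemidirectProduct.inl : _ →* Γ).comp
      (FreeGroup.lift (fun v : ι × ℕ => F^[v.2] (M v.1))) := by
    ext1 v
    rw [MonoidHom.comp_apply, MonoidHom.comp_apply, th, FreeGroup.lift_apply_of,
      FreeGroup.lift_apply_of, cj, map_mul, map_mul, map_pow, map_inv, map_pow, hfs, hft, hconj]
  -- relations
  have hker : π.ker ≤ f.ker := by
    intro w hw
    rw [MonoidHom.mem_ker] at hw ⊢
    obtain ⟨C, hC⟩ := exists_th w
    obtain ⟨u, m, _, h2⟩ := hC C le_rfl
    have h3 := congrArg π h2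
    rw [map_mul, map_mul, map_pow, map_pow, hπt, hw, mul_one] at h3
    have h4 : π (th ι u) = FreeGroup.lift (cj t s) u := by rw [← hπth]; rfl
    rw [h4] at h3
    have h5 : χ (FreeGroup.lift (cj t s) u) = 1 := by
      have h6 : (FreeGroup.lift (cj t s)).range ≤ χ.ker := by
        rw [MonoidHom.range_eq_map, ← FreeGroup.closure_range_of, MonoidHom.map_closure,
          Subgroup.closure_le]
        rintro _ ⟨_, ⟨v, rfl⟩, rfl⟩
        rw [FreeGroup.lift_apply_of]
        exact cj_mem χ.ker t s hs v
      exact h6 ⟨u, rfl⟩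
    have h7 := congrArg χ h3
    rw [map_mul, h5, one_mul, map_pow, map_pow, ht] at h7
    have h8 : C = m := by
      have h9 := congrArg Multiplicative.toAdd h7
      simpa using h9
    subst h8
    have h10 : FreeGroup.lift (cj t s) u = 1 := mul_eq_right.1 h3.symm
    have h11 : f (th ι u) = 1 := by
      have h12 : f (th ι u) = SemidirectProduct.inl
        (FreeGroup.lift (fun v : ι × ℕ => F^[v.2] (M v.1)) u) := by
        have := DFunLike.congr_fun hfth u
        exact this
      rw [h12, hrel u h10, map_one]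
    have h13 := congrArg f h2
    rw [map_mul, map_mul, h11, one_mul] at h13
    exact mul_eq_left.1 h13
  refine ⟨f.ker.map π, Subgroup.Normal.map inferInstance π hπ, ?_, ?_⟩
  · have h1 : (f.ker.map π).comap π = f.ker := by
      rw [Subgroup.comap_map_eq, sup_eq_left]
      exact hker
    have h2 := Subgroup.index_comap_of_surjective (f.ker.map π) hπ
    rw [← h2, h1]
    exact (Subgroup.finiteIndex_ker f).index_ne_zero
  · rintro ⟨w, hw, hwg⟩
    apply hM
    have h1 : w⁻¹ * FreeGroup.of (Sum.inl none) ∈ π.ker := by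
      rw [MonoidHom.mem_ker, map_mul, map_inv, hπs, hwg]
      exact inv_mul_cancel g
    have h2 := hker h1
    rw [MonoidHom.mem_ker, map_mul, map_inv] at h2
    have h3 : f w = 1 := hw
    rw [h3, inv_one, one_mul, hfs] at h2
    exact SemidirectProduct.inl_injective (h2.trans (map_one _).symm)

end Pool.Agent.R664.DF
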