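import Mathlib
import Pool.Agent.R664.DF.Main

/-!
# Finite extensions and abelian quotients
-/

set_option autoImplicit false

namespace Pool.Agent.R664.DF

open Group
open scoped commutatorElement

/-- virtually residually finite groups -/
theorem rf_of_finiteIndex {G : Type} [Group G] (D : Subgroup G) [hD : D.FiniteIndex]
    (h : ResiduallyFinite D) : ResiduallyFinite G := by
  rw [residuallyFinite_iff_exists_finiteIndex]
  intro g hg
  by_cases hgD : g ∈ D
  · obtain ⟨N, hN, hgN⟩ := (residuallyFinite_iff_exists_finiteIndex.1 h) ⟨g, hgD⟩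
      (fun h => hg (congrArg Subtype.val h))
    refine ⟨N.map D.subtype, ⟨?_⟩, ?_⟩
    · rw [Subgroup.index_map, Subgroup.ker_subtype, sup_bot_eq, Subgroup.range_subtype]
      exact mul_ne_zero hN.index_ne_zero hD.index_ne_zero
    · rintro ⟨x, hx, hxg⟩
      apply hgN
      have : x = ⟨g, hgD⟩ := Subtype.ext hxg
      rwa [← this]
  · exact ⟨D, hD, hgD⟩

/-- preimages of finite index subgroups -/
theorem fi_comap {A B : Type} [Group A] [Group B] (f : A →* B) (H : Subgroup B) [H.FiniteIndex] :
    (H.comap f).FiniteIndex := by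
  refine ⟨?_⟩
  rw [Subgroup.index_comap]
  exact (inferInstance : (H.subgroupOf f.range).FiniteIndex).index_ne_zero

/-- finitely generated abelian groups are residually finite -/
theorem rf_of_comm {A : Type} [hG : Group A] [hA : Group.FG A] (hc : ∀ a b : A, a * b = b * a) :
    ResiduallyFinite A := by
  classical
  let _ : CommGroup A := { hG with mul_comm := hc }
  rw [residuallyFinite_iff_exists_finiteIndex]
  intro g hg
  have hfg : AddGroup.FG (Additive A) := GroupFG.iff_add_fg.1 hA
  obtain ⟨n, ι, _, p, hp, e, ⟨f⟩⟩ := AddCommGroup.equiv_free_prod_directSum_zmod (Additive A)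
  have key : ∃ (H : Type) (_ : AddCommGroup H) (_ : Finite H) (φ : Additive A →+ H),
      φ (Additive.ofMul g) ≠ 0 := by
    have hfg : f (Additive.ofMul g) ≠ 0 := by
      intro h
      apply hg
      have := f.injective (h.trans (map_zero f).symm)
      exact this
    by_cases h1 : (f (Additive.ofMul g)).1 = 0
    · have h2 : (f (Additive.ofMul g)).2 ≠ 0 := fun h => hfg (Prod.ext h1 h)
      have hne : ∀ i, NeZero (p i ^ e i) := fun i => ⟨pow_ne_zero _ (hp i).ne_zero⟩
      have hfin : Finite (DirectSum ι fun i => ZMod (p i ^ e i)) := by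
        have h4 : ∀ i, Finite (ZMod (p i ^ e i)) := fun i => inferInstance
        exact Finite.of_equiv _ (DirectSum.addEquivProd (fun i => ZMod (p i ^ e i))).symm.toEquiv
      exact ⟨DirectSum ι fun i => ZMod (p i ^ e i), inferInstance, hfin,
        (AddMonoidHom.snd _ _).comp f.toAddMonoidHom, h2⟩
    · obtain ⟨i, hi⟩ : ∃ i, (f (Additive.ofMul g)).1 i ≠ 0 := by
        by_contra hcon
        push Not at hcon
        exact h1 (Finsupp.ext hcon)
      let m : ℤ := (f (Additive.ofMul g)).1 i
      let N : ℕ := m.natAbs + 1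
      have : NeZero N := ⟨Nat.succ_ne_zero _⟩
      refine ⟨ZMod N, inferInstance, inferInstance,
        ((Int.castRingHom (ZMod N)).toAddMonoidHom.comp
          ((Finsupp.applyAddHom i).comp (AddMonoidHom.fst _ _))).comp f.toAddMonoidHom, ?_⟩
      intro h
      have h2 : (m : ZMod N) = 0 := by
        have h0 : (Int.castRingHom (ZMod N)) m = 0 := h
        rwa [eq_intCast] at h0
      rw [ZMod.intCast_zmod_eq_zero_iff_dvd] at h2
      have h3 := Int.natAbs_dvd_natAbs.2 h2
      simp only [Int.natAbs_natCast] at h3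
      have h4 := Nat.le_of_dvd (Int.natAbs_pos.2 hi) h3
      omega
  obtain ⟨H, _, hH, φ, hφ⟩ := key
  let ψ : A →* Multiplicative H := AddMonoidHom.toMultiplicativeRight φ
  refine ⟨ψ.ker, Subgroup.finiteIndex_ker ψ, ?_⟩
  intro h
  exact hφ h

/-- finitely generated groups with finite derived subgroup -/
theorem rf_of_finite_commutator {Q : Type} [Group Q] [hQ : Group.FG Q]
    [Finite (commutatorSet Q)] : ResiduallyFinite Q := by
  have h1 : (Subgroup.center Q).FiniteIndex := inferInstance
  have h2 : Group.FG (Subgroup.center Q) := inferInstance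
  exact rf_of_finiteIndex (Subgroup.center Q) (rf_of_comm fun a b =>
    Subtype.ext (Subgroup.mem_center_iff.1 b.2 a.1))

/-- extensions of finitely generated residually finite groups by abelian groups -/
theorem rf_of_abelian_quotient {G : Type} [Group G] [hG : Group.FG G] (L : Subgroup G)
    (hL : commutator G ≤ L) (hLfg : L.FG) (h : ResiduallyFinite L) : ResiduallyFinite G := by
  classical
  have hLn : L.Normal := by
    refine ⟨fun n hn g => ?_⟩
    have h1 : ⁅g, n⁆ ∈ L := hL (Subgroup.commutator_mem_commutator (Subgroup.mem_top _)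
      (Subgroup.mem_top _))
    have h2 := L.mul_mem h1 hn
    rwa [commutatorElement_def, inv_mul_cancel_right] at h2
  have hLfg' : Group.FG L := (Group.fg_iff_subgroup_fg L).2 hLfg
  rw [residuallyFinite_iff_exists_finiteIndex]
  intro g hg
  by_cases hgL : g ∈ L
  · -- a characteristic subgroup of finite index
    obtain ⟨N, hgN⟩ := exists_finiteIndexNormalSubgroup_notMem (⟨g, hgL⟩ : L)
      (fun h => hg (congrArg Subtype.val h))
    have hNfi : N.toSubgroup.FiniteIndex := N.isFiniteIndex'
    let Γ : Type := L ⧸ N.toSubgroup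
    have hΓ : Finite Γ := Subgroup.finite_quotient_of_finiteIndex
    have hhom : Finite (L →* Γ) := by
      obtain ⟨S, hS⟩ := hLfg'.out
      refine Finite.of_injective (fun (φ : L →* Γ) (x : S) => φ x.1) ?_
      intro φ ψ hφψ
      refine MonoidHom.eq_of_eqOn_dense hS ?_
      intro x hx
      exact congrFun hφψ ⟨x, hx⟩
    let M : Subgroup L := ⨅ φ : L →* Γ, φ.ker
    have hM : M.FiniteIndex := by
      refine Subgroup.finiteIndex_iInf fun φ => ?_
      exact Subgroup.finiteIndex_ker φ
    have hgM : (⟨g, hgL⟩ : L) ∉ M := by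
      intro h
      have h1 := (Subgroup.mem_iInf.1 h) (QuotientGroup.mk' N.toSubgroup)
      rw [MonoidHom.mem_ker, QuotientGroup.mk'_apply, QuotientGroup.eq_one_iff] at h1
      exact hgN h1
    have hMmem : ∀ x : L, x ∈ M ↔ ∀ φ : L →* Γ, φ x = 1 := by
      intro x
      rw [Subgroup.mem_iInf]
      exact Iff.rfl
    let M' : Subgroup G := M.map L.subtype
    have hM'n : M'.Normal := by
      refine ⟨?_⟩
      rintro _ ⟨x, hx, rfl⟩ c
      let cc : L →* L := (MulAut.conjNormal c).toMonoidHom
      refine ⟨cc x, ?_, rfl⟩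
      rw [SetLike.mem_coe, hMmem]
      intro φ
      exact (hMmem x).1 hx (φ.comp cc)
    have hgM' : g ∉ M' := by
      rintro ⟨x, hx, hxg⟩
      apply hgM
      have : x = ⟨g, hgL⟩ := Subtype.ext hxg
      rwa [← this]
    -- the quotient
    have hcomm : Finite (commutatorSet (G ⧸ M')) := by
      have h1 : commutatorSet (G ⧸ M') ⊆ Set.range
          (fun q : L ⧸ M => (Quotient.liftOn' q (fun x : L => ((x : G) : G ⧸ M'))
            (by
              intro a b hab
              rw [QuotientGroup.leftRel_apply] at hab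
              rw [QuotientGroup.eq]
              exact ⟨a⁻¹ * b, hab, rfl⟩) : G ⧸ M')) := by
        rintro _ ⟨a, b, rfl⟩
        obtain ⟨a, rfl⟩ := QuotientGroup.mk_surjective a
        obtain ⟨b, rfl⟩ := QuotientGroup.mk_surjective b
        have h2 : ⁅a, b⁆ ∈ L := hL (Subgroup.commutator_mem_commutator (Subgroup.mem_top _)
          (Subgroup.mem_top _))
        exact ⟨((⟨⁅a, b⁆, h2⟩ : L) : L ⧸ M), rfl⟩
      have h3 : Finite (L ⧸ M) := Subgroup.finite_quotient_of_finiteIndex
      exact (Set.finite_range _).subset h1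
    have hfgQ : Group.FG (G ⧸ M') := inferInstance
    have hrf : ResiduallyFinite (G ⧸ M') := rf_of_finite_commutator
    obtain ⟨H, hH, hgH⟩ := (residuallyFinite_iff_exists_finiteIndex.1 hrf) (g : G ⧸ M')
      (fun h => hgM' ((QuotientGroup.eq_one_iff g).1 h))
    exact ⟨H.comap (QuotientGroup.mk' M'), fi_comap _ H, hgH⟩
  · have hfgQ : Group.FG (G ⧸ L) := inferInstance
    have hrf : ResiduallyFinite (G ⧸ L) := by
      refine rf_of_comm fun a b => ?_
      obtain ⟨a, rfl⟩ := QuotientGroup.mk_surjective a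
      obtain ⟨b, rfl⟩ := QuotientGroup.mk_surjective b
      rw [← QuotientGroup.mk_mul, ← QuotientGroup.mk_mul, QuotientGroup.eq]
      have h2 : ⁅b⁻¹, a⁻¹⁆ ∈ L := hL (Subgroup.commutator_mem_commutator
        (Subgroup.mem_top _) (Subgroup.mem_top _))
      have h3 : (a * b)⁻¹ * (b * a) = ⁅b⁻¹, a⁻¹⁆ := by
        rw [commutatorElement_def]; group
      rwa [h3]
    obtain ⟨H, hH, hgH⟩ := (residuallyFinite_iff_exists_finiteIndex.1 hrf) (g : G ⧸ L)
      (fun h => hgL ((QuotientGroup.eq_one_iff g).1 h))
    exact ⟨H.comap (QuotientGroup.mk' L), fi_comap _ H, hgH⟩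

/-- finitely generated free groups -/
theorem rf_of_free {K : Type} [Group K] [IsFreeGroup K] [hK : Group.FG K] :
    ResiduallyFinite K := by
  let χ : K × Multiplicative ℤ →* Multiplicative ℤ := MonoidHom.snd _ _
  have hχ : Function.Surjective χ := fun n => ⟨(1, n), rfl⟩
  have hfree : ∀ H : Subgroup (K × Multiplicative ℤ), H ≤ χ.ker → H.FG → IsFreeGroup H := by
    intro H hH _
    let f : H →* K := (MonoidHom.fst K (Multiplicative ℤ)).comp H.subtype
    have hf : Function.Injective f := by
      rw [injective_iff_map_eq_one]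
      intro x hx
      have h1 : (x : K × Multiplicative ℤ).2 = 1 := hH x.2
      exact Subtype.ext (Prod.ext hx h1)
    exact IsFreeGroup.ofMulEquiv (MonoidHom.ofInjective hf).symm
  have hfg : Group.FG (K × Multiplicative ℤ) := inferInstance
  have hrf : ResiduallyFinite (K × Multiplicative ℤ) := by
    rw [residuallyFinite_iff_exists_finiteIndex]
    intro g hg
    obtain ⟨N, _, h1, h2⟩ := rf_of_locallyFree_by_Z χ hχ hfree g hg
    exact ⟨N, ⟨h1⟩, h2⟩
  rw [residuallyFinite_iff_exists_finiteIndex]
  intro g hg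
  obtain ⟨H, hH, hgH⟩ := (residuallyFinite_iff_exists_finiteIndex.1 hrf) (g, 1)
    (fun h => hg (congrArg Prod.fst h))
  exact ⟨H.comap (MonoidHom.inl K (Multiplicative ℤ)), fi_comap _ H, hgH⟩

/-- finitely generated groups with a locally free normal subgroup `K` such that `K ⟨t⟩` has finite
index -/
theorem rf_of_virtually {G : Type} [Group G] [hG : Group.FG G] (K : Subgroup G) [hK : K.Normal]
    (hfree : ∀ H : Subgroup G, H ≤ K → H.FG → IsFreeGroup H) (t : G)
    (ht : (K ⊔ Subgroup.zpowers t).FiniteIndex) : ResiduallyFinite G := by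
  classical
  refine rf_of_finiteIndex (K ⊔ Subgroup.zpowers t) ?_
  have hmem : ∀ d : (K ⊔ Subgroup.zpowers t : Subgroup G), ∃ m : ℤ, (d : G) * t ^ (-m) ∈ K := by
    rintro ⟨d, hd⟩
    obtain ⟨k, hk, z, hz, rfl⟩ := Subgroup.mem_sup_of_normal_left.1 hd
    obtain ⟨m, rfl⟩ := Subgroup.mem_zpowers_iff.1 hz
    refine ⟨m, ?_⟩
    rw [mul_assoc, ← zpow_add, add_neg_cancel, zpow_zero, mul_one]
    exact hk
  have hfgD : Group.FG (K ⊔ Subgroup.zpowers t : Subgroup G) := inferInstance
  by_cases htor : ∃ m : ℤ, m ≠ 0 ∧ t ^ m ∈ K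
  · obtain ⟨m, hm, htm⟩ := htor
    have hKD : (K.subgroupOf (K ⊔ Subgroup.zpowers t)).FiniteIndex := by
      let q : Subgroup.zpowers (t : G ⧸ K) → Prop := fun _ => True
      have hfin : Finite (Subgroup.zpowers (t : G ⧸ K)) := by
        have hord : IsOfFinOrder (t : G ⧸ K) := by
          refine isOfFinOrder_iff_zpow_eq_one.2 ⟨m, hm, ?_⟩
          rw [← QuotientGroup.mk_zpow]
          exact (QuotientGroup.eq_one_iff _).2 htm
        exact hord.finite_zpowers
      let f : (K ⊔ Subgroup.zpowers t : Subgroup G) →* Subgroup.zpowers (t : G ⧸ K) :=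
        ((QuotientGroup.mk' K).comp (K ⊔ Subgroup.zpowers t : Subgroup G).subtype).codRestrict _
          (fun d => by
            obtain ⟨n, hn⟩ := hmem d
            refine Subgroup.mem_zpowers_iff.2 ⟨n, ?_⟩
            have h1 : ((d : G) * t ^ (-n) : G) = ((d : G) * t ^ (-n)) := rfl
            rw [MonoidHom.comp_apply, Subgroup.coe_subtype, QuotientGroup.mk'_apply, eq_comm,
              ← QuotientGroup.mk_zpow]
            have h2 := (QuotientGroup.eq_one_iff (N := K) _).2 hn
            rw [QuotientGroup.mk_mul, zpow_neg, QuotientGroup.mk_inv] at h2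
            exact mul_inv_eq_one.1 h2)
      have h1 : f.ker = K.subgroupOf (K ⊔ Subgroup.zpowers t) := by
        ext d
        rw [MonoidHom.mem_ker, Subgroup.mem_subgroupOf, ← QuotientGroup.eq_one_iff]
        constructor
        · intro h
          exact congrArg Subtype.val h
        · intro h
          exact Subtype.ext h
      rw [← h1]
      exact Subgroup.finiteIndex_ker f
    have hKfi : K.FiniteIndex := by
      refine ⟨?_⟩
      have hle : K ≤ K ⊔ Subgroup.zpowers t := le_sup_left
      rw [← Subgroup.relIndex_mul_index hle]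
      exact mul_ne_zero hKD.index_ne_zero ht.index_ne_zero
    have h4 : Group.FG K := inferInstance
    have h5 : IsFreeGroup K := hfree _ le_rfl ((Group.fg_iff_subgroup_fg _).1 h4)
    have h6 : ResiduallyFinite G := rf_of_finiteIndex K rf_of_free
    infer_instance
  · push Not at htor
    have hinj : ∀ (d : G) (a b : ℤ), d * t ^ (-a) ∈ K → d * t ^ (-b) ∈ K → a = b := by
      intro d a b ha hb
      by_contra hab
      refine htor (a - b) (sub_ne_zero.2 hab) ?_
      have h1 := K.mul_mem (K.inv_mem ha) hb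
      have h2 : (d * t ^ (-a))⁻¹ * (d * t ^ (-b)) = t ^ (a - b) := by
        rw [mul_inv_rev, mul_assoc, inv_mul_cancel_left, zpow_neg, inv_inv, ← zpow_add,
          sub_eq_add_neg]
      rwa [h2] at h1
    choose s hs using hmem
    have hmul : ∀ a b : (K ⊔ Subgroup.zpowers t : Subgroup G),
        ((a * b : (K ⊔ Subgroup.zpowers t : Subgroup G)) : G) * t ^ (-(s a + s b)) ∈ K := by
      intro a b
      have h1 := hK.conj_mem _ (hs b) (a : G)
      have h2 := K.mul_mem h1 (hs a)
      have h3 : (a : G) * ((b : G) * t ^ (-(s b))) * (a : G)⁻¹ * ((a : G) * t ^ (-(s a))) =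
          ((a * b : (K ⊔ Subgroup.zpowers t : Subgroup G)) : G) * t ^ (-(s a + s b)) := by
        rw [neg_add_rev, zpow_add, Subgroup.coe_mul]
        group
      rwa [h3] at h2
    let χ : (K ⊔ Subgroup.zpowers t : Subgroup G) →* Multiplicative ℤ :=
      { toFun := fun d => Multiplicative.ofAdd (s d)
        map_one' := by
          have : s 1 = 0 := by
            refine hinj 1 _ _ (hs 1) ?_
            simpa using K.one_mem
          rw [this]
          rfl
        map_mul' := by
          intro a b
          have : s (a * b) = s a + s b := hinj _ _ _ (hs (a * b)) (hmul a b)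
          rw [this]
          rfl }
    have htD : t ∈ K ⊔ Subgroup.zpowers t :=
      (le_sup_right : Subgroup.zpowers t ≤ K ⊔ Subgroup.zpowers t) (Subgroup.mem_zpowers t)
    have hχ : Function.Surjective χ := by
      intro m
      refine ⟨⟨t, htD⟩ ^ (Multiplicative.toAdd m), ?_⟩
      rw [map_zpow]
      have h1 : s ⟨t, htD⟩ = 1 := by
        refine hinj t _ _ (hs ⟨t, htD⟩) ?_
        rw [zpow_neg_one, mul_inv_cancel]
        exact K.one_mem
      change (Multiplicative.ofAdd (s ⟨t, htD⟩)) ^ _ = _
      rw [h1, ← ofAdd_zsmul]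
      simp
    rw [residuallyFinite_iff_exists_finiteIndex]
    intro g hg
    obtain ⟨N, _, h1, h2⟩ := rf_of_locallyFree_by_Z χ hχ (by
      intro H hH hfg
      have h1 : H.map (K ⊔ Subgroup.zpowers t : Subgroup G).subtype ≤ K := by
        rintro _ ⟨d, hd, rfl⟩
        have h2 : s d = 0 := by
          have := hH hd
          rw [MonoidHom.mem_ker] at this
          exact Multiplicative.ofAdd.injective this
        have h3 := hs d
        rw [h2, neg_zero, zpow_zero, mul_one] at h3
        exact h3
      have h2 := hfree _ h1 (Pool.Agent.H71R2.Frob.fg_map _ hfg)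
      exact IsFreeGroup.ofMulEquiv (H.equivMapOfInjective _
        (Subgroup.subtype_injective _)).symm) g hg
    exact ⟨N, ⟨h1⟩, h2⟩

/-- **Main theorem.** -/
theorem rf_of_derived {G : Type} [Group G] [hG : Group.FG G] (K L : Subgroup G)
    (hKL : K ≤ L) (hn : ∀ x ∈ L, ∀ k ∈ K, x * k * x⁻¹ ∈ K)
    (hfree : ∀ H : Subgroup G, H ≤ K → H.FG → IsFreeGroup H)
    (hL : commutator G ≤ L) (hLfg : L.FG)
    (ht : ∃ t ∈ L, (K ⊔ Subgroup.zpowers t).relIndex L ≠ 0) : ResiduallyFinite G := by
  obtain ⟨t, htL, hti⟩ := ht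
  refine rf_of_abelian_quotient L hL hLfg ?_
  have hLfg' : Group.FG L := (Group.fg_iff_subgroup_fg L).2 hLfg
  have hn : (K.subgroupOf L).Normal := ⟨fun k hk x => hn x.1 x.2 k.1 hk⟩
  refine rf_of_virtually (K.subgroupOf L) ?_ ⟨t, htL⟩ ?_
  · intro H hH hfg
    have h1 : H.map L.subtype ≤ K := by
      rintro _ ⟨d, hd, rfl⟩
      exact hH hd
    have h2 := hfree _ h1 (Pool.Agent.H71R2.Frob.fg_map _ hfg)
    exact IsFreeGroup.ofMulEquiv (H.equivMapOfInjective _ (Subgroup.subtype_injective _)).symm
  · refine ⟨?_⟩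
    have h1 : K.subgroupOf L ⊔ Subgroup.zpowers (⟨t, htL⟩ : L) =
        (K ⊔ Subgroup.zpowers t).subgroupOf L := by
      have h2 : Subgroup.zpowers (⟨t, htL⟩ : L) = (Subgroup.zpowers t).subgroupOf L := by
        ext x
        rw [Subgroup.mem_subgroupOf, Subgroup.mem_zpowers_iff, Subgroup.mem_zpowers_iff]
        constructor
        · rintro ⟨k, rfl⟩
          exact ⟨k, rfl⟩
        · rintro ⟨k, hk⟩
          exact ⟨k, Subtype.ext hk⟩
      rw [h2]
      exact (Subgroup.subgroupOf_sup hKL (by rwa [Subgroup.zpowers_le])).symm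
    rw [h1]
    exact hti

end Pool.Agent.R664.DF
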